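import Pool.Agent.Lib.NG5.Defs

/-!
# NG5 / NonSq: no product of the four polynomials is a constant times a square

PROOF IN WORDS. `D = 4 X^4 + 1`, `Δ = -(X (2X^2+1)(2X^2+2X+1))`, `E1 = -(1+X)`, `E2 = 1 - X`. (a) `1 ∈ T`: the product is `X * k` with `k.eval 0 ≠ 0` (the value of each other factor at `0` is `1` or `-1`); the root multiplicity of `0` is `1`, but it is even for `C c * g^2` (`rootMultiplicity_mul`, `rootMultiplicity_pow`;
or: `X ∣ g^2` so `X ∣ g`, `X^2 ∣ X k`, `X ∣ k`). (b) `1 ∉ T`, `0 ∈ T`: `D E = C c g^2`, `E` the product over a subset of `{2, 3}`, `1 ≤ deg` or constant, `deg E ≤ 2`, `E ≠ 0`. `D` is separable (`2 ≠ 0`: `4 D - X D' = 4`), hence squarefree; `D ∣ C c g^2`, `c ≠ 0`, so `D ∣ g^2`, `D ∣ g`, `D^2 ∣ D E`, `D ∣ E`, `4 ≤ 2`. (c) `T = {2}` or `{3}`: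
degree `1` is odd. (d) `T = {2, 3}`: `-(1+X)(1-X) = X^2 - 1` has the derivative `2X`, is separable, hence squarefree, and not constant: `g^2 ∣ X^2 - 1` gives `g` a unit, degree `0`.
-/

set_option autoImplicit false

namespace Pool.Agent.Lib.NG5

open Polynomial

private theorem ns_ne (F : Type) [Field F] (i : Fin 4) : PP F i ≠ 0 := by
  have h01 : ∀ p : F[X], p.eval 0 ≠ 0 → p ≠ 0 := by
    rintro p hp rfl
    exact hp eval_zero
  fin_cases i
  · refine h01 _ ?_
    simp [PP]
  · have e : PP F 1 = X * (-((2 * X ^ 2 + 1) * (2 * X ^ 2 + 2 * X + 1))) := by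
      simp only [PP, Matrix.cons_val_one, Matrix.cons_val_zero]
      ring
    show PP F 1 ≠ 0
    rw [e]
    refine mul_ne_zero X_ne_zero (h01 _ ?_)
    simp
  · refine h01 _ ?_
    simp [PP]
  · refine h01 _ ?_
    simp [PP]

private theorem ns_eval (F : Type) [Field F] (i : Fin 4) (hi : i ≠ 1) : (PP F i).eval 0 ≠ 0 := by
  fin_cases i
  · simp [PP]
  · exact absurd rfl hi
  · simp [PP]
  · simp [PP]

private theorem ns_deg (F : Type) [Field F] (i : Fin 4) (h0 : i ≠ 0) (h1 : i ≠ 1) :
    (PP F i).natDegree ≤ 1 := by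
  fin_cases i
  · exact absurd rfl h0
  · exact absurd rfl h1
  · show (-(1 + X : F[X])).natDegree ≤ 1
    compute_degree
  · show (1 - X : F[X]).natDegree ≤ 1
    compute_degree

private theorem ns_sep (F : Type) [Field F] (h2 : (2 : F) ≠ 0) : (4 * X ^ 4 + 1 : F[X]).Separable := by
  have h4 : (4 : F) ≠ 0 := by
    have : (4 : F) = 2 * 2 := by norm_num
    rw [this]
    exact mul_ne_zero h2 h2
  refine ⟨1, -(C (4 : F)⁻¹ * X), ?_⟩
  have hC : (4 : F[X]) = C (4 : F) := (map_ofNat (C : F →+* F[X]) 4).symm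
  have e : derivative (4 * X ^ 4 + 1 : F[X]) = 4 * (4 * X ^ 3) := by
    rw [hC]
    simp only [derivative_add, derivative_C_mul, derivative_X_pow, derivative_one, add_zero]
    norm_num
  rw [e]
  have h5 : C (4 : F)⁻¹ * (4 : F[X]) = 1 := by
    rw [hC, ← C_mul, inv_mul_cancel₀ h4, C_1]
  linear_combination (-(4 * X ^ 4)) * h5

private theorem ns_degD (F : Type) [Field F] (h2 : (2 : F) ≠ 0) : (4 * X ^ 4 + 1 : F[X]).natDegree = 4 := by
  have h4 : (4 : F) ≠ 0 := by
    have : (4 : F) = 2 * 2 := by norm_num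
    rw [this]
    exact mul_ne_zero h2 h2
  have hC : (4 : F[X]) = C (4 : F) := (map_ofNat (C : F →+* F[X]) 4).symm
  rw [hC]
  compute_degree!

theorem nonsq (F : Type) [Field F] (h2 : (2 : F) ≠ 0) (T : Finset (Fin 4)) (hT : T.Nonempty) (c : F) (g : F[X]) :
    ∏ i ∈ T, PP F i ≠ C c * g ^ 2 := by
  intro h
  have hne : ∏ i ∈ T, PP F i ≠ 0 := Finset.prod_ne_zero_iff.mpr fun i _ => ns_ne F i
  have hc : c ≠ 0 := by
    rintro rfl
    rw [h] at hne
    simp at hne
  have hg : g ≠ 0 := by
    rintro rfl
    rw [h] at hne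
    simp at hne
  by_cases h1 : (1 : Fin 4) ∈ T
  · -- the root `0` is simple
    rw [← Finset.mul_prod_erase T _ h1] at h
    have e : PP F 1 = X * (-((2 * X ^ 2 + 1) * (2 * X ^ 2 + 2 * X + 1))) := by
      simp only [PP, Matrix.cons_val_one, Matrix.cons_val_zero]
      ring
    rw [e, mul_assoc] at h
    set k : F[X] := -((2 * X ^ 2 + 1) * (2 * X ^ 2 + 2 * X + 1)) * ∏ i ∈ T.erase 1, PP F i with hk
    have hk0 : k.eval 0 ≠ 0 := by
      rw [hk, eval_mul, eval_prod]
      refine mul_ne_zero ?_ (Finset.prod_ne_zero_iff.mpr fun i hi => ns_eval F i (Finset.ne_of_mem_erase hi))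
      simp
    have h3 : c * g.eval 0 ^ 2 = 0 := by
      have h4 := congrArg (eval 0) h
      simp only [eval_mul, eval_X, zero_mul, eval_C, eval_pow] at h4
      exact h4.symm
    have h4 : g.eval 0 = 0 := by
      rcases mul_eq_zero.mp h3 with h5 | h5
      · exact absurd h5 hc
      · exact pow_eq_zero_iff (two_ne_zero) |>.mp h5
    obtain ⟨g', rfl⟩ := (dvd_iff_isRoot (p := g) (a := 0)).mpr h4
    rw [C_0, sub_zero] at h
    have h5 : k = C c * X * g' ^ 2 := by
      have h6 : X * k = X * (C c * X * g' ^ 2) := by rw [h]; ring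
      exact mul_left_cancel₀ X_ne_zero h6
    apply hk0
    rw [h5]
    simp
  · by_cases h0 : (0 : Fin 4) ∈ T
    · rw [← Finset.mul_prod_erase T _ h0] at h
      have e : PP F 0 = 4 * X ^ 4 + 1 := rfl
      rw [e] at h
      have hE : ∏ i ∈ T.erase 0, PP F i ≠ 0 := Finset.prod_ne_zero_iff.mpr fun i _ => ns_ne F i
      have hsub : T.erase 0 ⊆ {2, 3} := by
        intro i hi
        have hi0 := Finset.ne_of_mem_erase hi
        have hiT := Finset.mem_of_mem_erase hi
        fin_cases i
        · exact absurd rfl hi0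
        · exact absurd hiT h1
        · decide
        · decide
      have hdeg : (∏ i ∈ T.erase 0, PP F i).natDegree ≤ 2 := by
        refine (natDegree_prod_le _ _).trans ?_
        calc ∑ i ∈ T.erase 0, (PP F i).natDegree ≤ ∑ _i ∈ T.erase 0, 1 := by
              refine Finset.sum_le_sum fun i hi => ns_deg F i (Finset.ne_of_mem_erase hi) ?_
              rintro rfl
              exact h1 (Finset.mem_of_mem_erase hi)
          _ = (T.erase 0).card := by simp
          _ ≤ ({2, 3} : Finset (Fin 4)).card := Finset.card_le_card hsub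
          _ = 2 := by decide
      set D : F[X] := 4 * X ^ 4 + 1 with hD
      have hD4 : D.natDegree = 4 := ns_degD F h2
      have hD0 : D ≠ 0 := by
        intro h3
        rw [h3] at hD4
        simp at hD4
      have hsq : Squarefree D := (ns_sep F h2).squarefree
      have h3 : D ∣ g ^ 2 := by
        have h4 : D ∣ C c * g ^ 2 := ⟨_, h.symm⟩
        exact (IsUnit.dvd_mul_left (isUnit_C.mpr hc.isUnit)).mp h4
      have h4 : D ∣ g := (hsq.dvd_pow_iff_dvd two_ne_zero).mp h3
      obtain ⟨g', rfl⟩ := h4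
      have h5 : ∏ i ∈ T.erase 0, PP F i = D * (C c * g' ^ 2) := by
        have h6 : D * ∏ i ∈ T.erase 0, PP F i = D * (D * (C c * g' ^ 2)) := by rw [h]; ring
        exact mul_left_cancel₀ hD0 h6
      have h6 := natDegree_le_of_dvd ⟨_, h5⟩ hE
      omega
    · have key : ∀ T : Finset (Fin 4), T.Nonempty → 0 ∉ T → 1 ∉ T → T = {2} ∨ T = {3} ∨ T = {2, 3} := by
        decide
      have hdg : (C c * g ^ 2).natDegree = 2 * g.natDegree := by
        rw [natDegree_C_mul hc, natDegree_pow]
      rcases key T hT h0 h1 with rfl | rfl | rfl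
      · rw [Finset.prod_singleton] at h
        have h3 : (PP F 2).natDegree = 1 := by
          show (-(1 + X : F[X])).natDegree = 1
          rw [natDegree_neg]
          compute_degree!
        rw [h, hdg] at h3
        omega
      · rw [Finset.prod_singleton] at h
        have h3 : (PP F 3).natDegree = 1 := by
          show (1 - X : F[X]).natDegree = 1
          compute_degree!
        rw [h, hdg] at h3
        omega
      · rw [Finset.prod_pair (by decide)] at h
        have e : PP F 2 * PP F 3 = X ^ 2 - 1 := by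
          show -(1 + X : F[X]) * (1 - X) = X ^ 2 - 1
          ring
        rw [e] at h
        have h3 : c * g.eval 1 ^ 2 = 0 := by
          have h4 := congrArg (eval 1) h
          simp only [eval_mul, eval_X, eval_C, eval_pow, eval_sub, eval_one, one_pow, sub_self] at h4
          exact h4.symm
        have h4 : g.eval 1 = 0 := by
          rcases mul_eq_zero.mp h3 with h5 | h5
          · exact absurd h5 hc
          · exact pow_eq_zero_iff (two_ne_zero) |>.mp h5
        have h5 := congrArg (fun p => eval 1 (derivative p)) h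
        simp only [derivative_sub, derivative_one, derivative_C_mul, eval_sub, eval_mul,
          eval_C, eval_pow, eval_X, derivative_pow, h4] at h5
        norm_num at h5
        exact h2 h5

end Pool.Agent.Lib.NG5
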