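import Pool.Agent.Lib.NG5.Multi
import Pool.Agent.Lib.NG5.NonSq

/-!
# NG5 / Alpha: good parameters exist

PROOF IN WORDS. `multi 4 5` for `PP F` with `ε = ![-1, 1, -1, 1]` (`nonsq`; `2 ≠ 0` in `F` because the number of elements is odd). `quadraticChar F a = -1` gives `¬ IsSquare a` (`quadraticChar_neg_one_iff_not_isSquare`), `= 1` gives `a = e^2`, `e ≠ 0` (`quadraticChar_one_iff_isSquare` with `a ≠ 0`, as the character of `0` is `0`). Degrees `≤ 5`
(`natDegree` of the explicit polynomials: `compute_degree` or `natDegree_mul_le`).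
-/

set_option autoImplicit false

namespace Pool.Agent.Lib.NG5

open Polynomial in
private theorem alpha_deg (F : Type) [Field F] (i : Fin 4) : (PP F i).natDegree ≤ 5 := by
  fin_cases i
  · simp only [PP]
    show (4 * X ^ 4 + 1 : F[X]).natDegree ≤ 5
    compute_degree
    all_goals norm_num
  · show (-(X * (2 * X ^ 2 + 1) * (2 * X ^ 2 + 2 * X + 1)) : F[X]).natDegree ≤ 5
    have e : (-(X * (2 * X ^ 2 + 1) * (2 * X ^ 2 + 2 * X + 1)) : F[X]) =
        -(4 * X ^ 5) - 4 * X ^ 4 - 4 * X ^ 3 - 2 * X ^ 2 - X := by ring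
    rw [e]
    compute_degree
    all_goals norm_num
  · show (-(1 + X) : F[X]).natDegree ≤ 5
    compute_degree
    all_goals norm_num
  · show (1 - X : F[X]).natDegree ≤ 5
    compute_degree
    all_goals norm_num

theorem exists_alpha : ∃ q0 : ℕ, ∀ (F : Type) [Field F] [Fintype F], Fintype.card F % 2 = 1 → q0 ≤ Fintype.card F →
    ∃ α : F, Good F α := by
  classical
  obtain ⟨q0, hq0⟩ := multi 4 5
  refine ⟨q0, ?_⟩
  intro F _ _ hodd hq
  have h2 : (2 : F) ≠ 0 := by
    apply Ring.two_ne_zero
    intro hc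
    have := FiniteField.even_card_iff_char_two.mp hc
    omega
  obtain ⟨α, hα⟩ := hq0 F hodd hq (PP F) (alpha_deg F) (fun T hT c g => nonsq F h2 T hT c g)
    ![-1, 1, -1, 1] (by
      intro i
      fin_cases i
      · right; rfl
      · left; rfl
      · right; rfl
      · left; rfl)
  have a0 : quadraticChar F (4 * α ^ 4 + 1) = -1 := by
    have h := hα 0
    have e : (PP F 0).eval α = 4 * α ^ 4 + 1 := by
      show (4 * Polynomial.X ^ 4 + 1 : Polynomial F).eval α = _
      simp
    rw [e] at h
    exact h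
  have a1 : quadraticChar F (-(α * (2 * α ^ 2 + 1) * (2 * α ^ 2 + 2 * α + 1))) = 1 := by
    have h := hα 1
    have e : (PP F 1).eval α = -(α * (2 * α ^ 2 + 1) * (2 * α ^ 2 + 2 * α + 1)) := by
      show (-(Polynomial.X * (2 * Polynomial.X ^ 2 + 1) *
        (2 * Polynomial.X ^ 2 + 2 * Polynomial.X + 1)) : Polynomial F).eval α = _
      simp
    rw [e] at h
    exact h
  have a2 : quadraticChar F (-(1 + α)) = -1 := by
    have h := hα 2
    have e : (PP F 2).eval α = -(1 + α) := by
      show (-(1 + Polynomial.X) : Polynomial F).eval α = _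
      simp only [Polynomial.eval_neg, Polynomial.eval_add, Polynomial.eval_one, Polynomial.eval_X]
    rw [e] at h
    exact h
  have a3 : quadraticChar F (1 - α) = 1 := by
    have h := hα 3
    have e : (PP F 3).eval α = 1 - α := by
      show (1 - Polynomial.X : Polynomial F).eval α = _
      simp
    rw [e] at h
    exact h
  have key : ∀ a : F, quadraticChar F a = 1 → ∃ e : F, e ≠ 0 ∧ e ^ 2 = a := by
    intro a ha
    have ha0 : a ≠ 0 := by
      rintro rfl
      rw [quadraticChar_zero] at ha
      exact absurd ha (by norm_num)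
    obtain ⟨e, he⟩ := (quadraticChar_one_iff_isSquare ha0).mp ha
    refine ⟨e, ?_, by rw [he]; ring⟩
    rintro rfl
    exact ha0 (by rw [he]; ring)
  exact ⟨α, h2, quadraticChar_neg_one_iff_not_isSquare.mp a0, key _ a1,
    quadraticChar_neg_one_iff_not_isSquare.mp a2, key _ a3⟩

end Pool.Agent.Lib.NG5
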