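import Pool.Agent.Lib.NG5.Defs

/-!
# NG5 / Four: four more points

PROOF IN WORDS. `1 - α = z0^2`, `z0 ≠ 0`: `z = (z0)⁻¹` (image) is fixed by `σ` and `α z + z⁻¹ = z (α + z0^2) = z`. `-(1+α)` is not a square of `F`, so `1 + α ≠ 0`; its image in `K` is fixed by `σ^2`, so a square `t0^2` (`Cyc.sq`), `t0 ≠ 0`, `σ t0 = ± t0`, and `σ t0 = t0` is impossible (`Cyc.fix`, injectivity of `algebraMap`). `t = t0⁻¹`:
`σ t = -t`, `α t + t⁻¹ = t (α + t0^2) = t (α - 1 - α) = -t`. `W = {z, -z, t, -t}` has four elements (`2 ≠ 0`; `t ≠ ± z` because `σ t = -t ≠ t`).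
-/

set_option autoImplicit false

namespace Pool.Agent.Lib.NG5

theorem four_points {F K : Type} [Field F] [Field K] [Algebra F K] (σ : K ≃ₐ[F] K) (h1 : Cyc F K σ) (α : F) (hg : Good F α) :
    ∃ W : Finset K, W.card = 4 ∧ ∀ y ∈ W, y ≠ 0 ∧ σ y = algebraMap F K α * y + y⁻¹ ∧ σ (σ y) = y := by
  classical
  obtain ⟨h2, -, -, hns, z0, hz0, hz⟩ := hg
  have h2K : (2 : K) ≠ 0 := by
    have h3 : algebraMap F K 2 ≠ 0 := by
      rw [Ne, map_eq_zero]
      exact h2
    rwa [map_ofNat] at h3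
  -- the fixed point
  obtain ⟨w, hw⟩ : ∃ w : K, w = algebraMap F K z0 := ⟨_, rfl⟩
  have hw0 : w ≠ 0 := by
    rw [hw, Ne, map_eq_zero]
    exact hz0
  have hw2 : w ^ 2 = 1 - algebraMap F K α := by
    rw [hw, ← map_pow, hz, map_sub, map_one]
  have hσw : σ w = w := by
    rw [hw]
    exact AlgEquiv.commutes σ z0
  obtain ⟨z, hzdef⟩ : ∃ z : K, z = w⁻¹ := ⟨_, rfl⟩
  have hz0' : z ≠ 0 := by
    rw [hzdef]
    exact inv_ne_zero hw0
  have hσz : σ z = z := by
    rw [hzdef, map_inv₀, hσw]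
  have hzr : algebraMap F K α * z + z⁻¹ = z := by
    rw [hzdef, inv_inv]
    have h3 : algebraMap F K α = 1 - w ^ 2 := by
      rw [hw2]
      ring
    rw [h3]
    field_simp
    ring
  -- the other point
  have hfx : σ (σ (algebraMap F K (-(1 + α)))) = algebraMap F K (-(1 + α)) := by
    rw [AlgEquiv.commutes, AlgEquiv.commutes]
  obtain ⟨t0, ht0⟩ := h1.sq _ hfx
  have ht00 : t0 ≠ 0 := by
    intro h
    rw [h, mul_zero, map_eq_zero] at ht0
    exact hns ⟨0, by rw [ht0, mul_zero]⟩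
  have hσt0 : σ t0 = -t0 := by
    have h3 : σ t0 * σ t0 = t0 * t0 := by
      rw [← map_mul, ← ht0, AlgEquiv.commutes]
    rcases mul_self_eq_mul_self_iff.1 h3 with h | h
    · exfalso
      obtain ⟨c, hc⟩ := h1.fix t0 h
      apply hns
      refine ⟨c, ?_⟩
      apply (algebraMap F K).injective
      rw [ht0, map_mul, hc]
    · exact h
  have ht2 : t0 ^ 2 = -(1 + algebraMap F K α) := by
    rw [sq, ← ht0, map_neg, map_add, map_one]
  obtain ⟨t, htdef⟩ : ∃ t : K, t = t0⁻¹ := ⟨_, rfl⟩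
  have ht0' : t ≠ 0 := by
    rw [htdef]
    exact inv_ne_zero ht00
  have hσt : σ t = -t := by
    rw [htdef, map_inv₀, hσt0, inv_neg]
  have htr : algebraMap F K α * t + t⁻¹ = -t := by
    rw [htdef, inv_inv]
    have h3 : algebraMap F K α = -t0 ^ 2 - 1 := by
      rw [ht2]
      ring
    rw [h3]
    field_simp
    ring
  have hneg : ∀ x : K, x ≠ 0 → x ≠ -x := by
    intro x hx h
    have h3 : 2 * x = 0 := by
      calc 2 * x = x + x := by ring
        _ = x + -x := by rw [← h]
        _ = 0 := by ring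
    rcases mul_eq_zero.1 h3 with h4 | h4
    · exact h2K h4
    · exact hx h4
  have hzz := hneg z hz0'
  have htt := hneg t ht0'
  have hzt : z ≠ t := by
    intro h
    apply htt
    calc t = z := h.symm
      _ = σ z := hσz.symm
      _ = σ t := by rw [h]
      _ = -t := hσt
  have hznt : z ≠ -t := by
    intro h
    apply htt
    calc t = -(-t) := (neg_neg t).symm
      _ = -(σ t) := by rw [hσt]
      _ = σ (-t) := (map_neg σ t).symm
      _ = σ z := by rw [← h]
      _ = z := hσz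
      _ = -t := h
  have hnzt : -z ≠ t := fun h => hznt (by rw [← h, neg_neg])
  have hnznt : -z ≠ -t := fun h => hzt (neg_injective h)
  refine ⟨{z, -z, t, -t}, ?_, ?_⟩
  · rw [Finset.card_insert_of_notMem, Finset.card_insert_of_notMem, Finset.card_insert_of_notMem, Finset.card_singleton]
    · rw [Finset.mem_singleton]
      exact htt
    · rw [Finset.mem_insert, Finset.mem_singleton]
      rintro (h | h)
      · exact hnzt h
      · exact hnznt h
    · rw [Finset.mem_insert, Finset.mem_insert, Finset.mem_singleton]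
      rintro (h | h | h)
      · exact hzz h
      · exact hzt h
      · exact hznt h
  · intro y hy
    rw [Finset.mem_insert, Finset.mem_insert, Finset.mem_insert, Finset.mem_singleton] at hy
    rcases hy with h | h | h | h
    · rw [h]
      exact ⟨hz0', by rw [hσz, hzr], by rw [hσz, hσz]⟩
    · rw [h]
      refine ⟨neg_ne_zero.2 hz0', ?_, by rw [map_neg, hσz, map_neg, hσz]⟩
      rw [map_neg, hσz, inv_neg, mul_neg, ← neg_add, hzr]
    · rw [h]
      exact ⟨ht0', by rw [hσt, htr], by rw [hσt, map_neg, hσt, neg_neg]⟩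
    · rw [h]
      refine ⟨neg_ne_zero.2 ht0', ?_, by rw [map_neg, hσt, neg_neg, hσt]⟩
      rw [map_neg, hσt, inv_neg, mul_neg, ← neg_add, htr]

end Pool.Agent.Lib.NG5
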