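import Pool.Agent.Lib.NG5.Defs

/-!
# NG5 / Key: the norm identity

PROOF IN WORDS. Write `a` for the image of `α` in `K` (`σ a = a`). `σ x - σ y = a (x - y) + x⁻¹ - y⁻¹ = a (x-y)(x - (a y)⁻¹)/x`, so `(x - (a y)⁻¹) * (x - y) * a = x * (σ x - σ y) = x * σ (x - y)`. Take norms: `N(σ z) = N(z)` (by `Cyc.norm` and `four`, `algebraMap` injective; or `Algebra.norm_eq_of_algEquiv`), `N(a) = α^4` (`Cyc.norm`: `a^4`; or
`Algebra.norm_algebraMap`), `N(x - y) ≠ 0` as `x ≠ y` (`Algebra.norm_ne_zero_iff` or from `Cyc.norm`: a product of nonzero factors). Cancel.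
-/

set_option autoImplicit false

namespace Pool.Agent.Lib.NG5

theorem key {F K : Type} [Field F] [Field K] [Algebra F K] (σ : K ≃ₐ[F] K) (h1 : Cyc F K σ) (α : F) (hα : α ≠ 0)
    (x y : K) (hx0 : x ≠ 0) (hy0 : y ≠ 0) (hx : σ x = algebraMap F K α * x + x⁻¹)
    (hy : σ y = algebraMap F K α * y + y⁻¹) (hxy : x ≠ y) :
    x ≠ (algebraMap F K α * y)⁻¹ ∧
      Algebra.norm F (x - (algebraMap F K α * y)⁻¹) = Algebra.norm F x * (α ^ 4)⁻¹ := by
  have ha : algebraMap F K α ≠ 0 := by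
    rwa [Ne, FaithfulSMul.algebraMap_eq_zero_iff]
  have hxy' : x - y ≠ 0 := sub_ne_zero.2 hxy
  have e1 : (x - (algebraMap F K α * y)⁻¹) * (x - y) * algebraMap F K α = x * σ (x - y) := by
    rw [map_sub, hx, hy]
    field_simp
    ring
  have hinj : Function.Injective (algebraMap F K) := (algebraMap F K).injective
  have hN : ∀ z : K, Algebra.norm F (σ z) = Algebra.norm F z := by
    intro z
    apply hinj
    rw [h1.norm, h1.norm, h1.four]
    ring
  have hNa : Algebra.norm F (algebraMap F K α) = α ^ 4 := by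
    apply hinj
    rw [h1.norm]
    simp only [AlgEquiv.commutes, map_pow]
    ring
  have hNn : ∀ z : K, z ≠ 0 → Algebra.norm F z ≠ 0 := by
    intro z hz h0
    have h2 := h1.norm z
    rw [h0, map_zero] at h2
    have h3 : ∀ w : K, w ≠ 0 → σ w ≠ 0 := fun w hw => (map_ne_zero σ).2 hw
    have h4 := h3 _ hz
    have h5 := h3 _ h4
    have h6 := h3 _ h5
    exact mul_ne_zero (mul_ne_zero (mul_ne_zero hz h4) h5) h6 h2.symm
  have hN0 : Algebra.norm F (0 : K) = 0 := by
    apply hinj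
    rw [h1.norm, zero_mul, zero_mul, zero_mul, map_zero]
  have e2 := congrArg (Algebra.norm F) e1
  rw [map_mul, map_mul, map_mul, hN, hNa] at e2
  have h7 : Algebra.norm F (x - y) ≠ 0 := hNn _ hxy'
  have h8 : α ^ 4 ≠ 0 := pow_ne_zero 4 hα
  constructor
  · intro h
    rw [← h, sub_self, hN0, zero_mul, zero_mul] at e2
    exact mul_ne_zero (hNn _ hx0) h7 e2.symm
  · rw [eq_mul_inv_iff_mul_eq₀ h8]
    have h9 : Algebra.norm F (x - (algebraMap F K α * y)⁻¹) * α ^ 4 * Algebra.norm F (x - y) =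
        Algebra.norm F x * Algebra.norm F (x - y) := by
      rw [← e2]
      ring
    exact mul_right_cancel₀ h7 h9

end Pool.Agent.Lib.NG5
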