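import Pool.Agent.Lib.NG5.Defs

/-!
# NG5 / Norm: the Frobenius automorphism

PROOF IN WORDS. `F` is finite (`Finite.of_injective` of `algebraMap`), `q = Nat.card F`, `Nat.card K = q^4`. `φ = FiniteField.frobeniusAlgEquivOfAlgebraic F K` (or built by hand), `φ x = x^q`. `four`: `x^(q^4) = x`. `norm`: `FiniteField.algebraMap_norm_eq_pow` (`N x = x^((q^4-1)/(q-1))`) or `Algebra.norm_eq_prod_automorphisms`;
`(q^4-1)/(q-1) = 1 + q + q^2 + q^3`. `fix`: `x^q = x` has only the `q` solutions in the image of `F` (Galois theory: fixed field of the group generated by `φ`, or count roots of `X^q - X`). `sq`: `x^(q^2) = x`; `x = 0` or `x^(q^2-1) = 1`; `q` odd: `x^((q^4-1)/2) = (x^(q^2-1))^((q^2+1)/2) = 1`, `FiniteField.isSquare_iff`; `q` even: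
every element is a square (`FiniteField.isSquare_of_char_two`). For `φ.symm`: `four` and `sq` and `fix` follow; `norm`: `φ.symm x = φ (φ (φ x))` by `four`, so the four factors are the same in another order. (`LEAN: NGX/Upper.lean`, `NGX/Lower.lean` in `MP_f4a4e4_co` have norm formulas to copy.)
-/

set_option autoImplicit false

namespace Pool.Agent.Lib.NG5

private theorem nm_arith {q : ℕ} (hq : q % 2 = 1) : q ^ 4 / 2 = (q ^ 2 - 1) * ((q ^ 2 + 1) / 2) := by
  obtain ⟨k, hk⟩ : ∃ k, q ^ 2 = 2 * k + 1 := by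
    have h1 : q ^ 2 % 2 = 1 := by
      rw [Nat.pow_mod, hq]
    exact ⟨q ^ 2 / 2, by omega⟩
  have h2 : q ^ 4 = 2 * (2 * k * (k + 1)) + 1 := by
    have h3 : q ^ 4 = (q ^ 2) ^ 2 := by ring
    rw [h3, hk]
    ring
  have h3 : q ^ 2 - 1 = 2 * k := by omega
  have h4 : (q ^ 2 + 1) / 2 = k + 1 := by omega
  rw [h3, h4, h2]
  omega

theorem exists_cyc (F K : Type) [Field F] [Field K] [Finite K] [Algebra F K] (h : Module.finrank F K = 4) :
    ∃ φ : K ≃ₐ[F] K, Cyc F K φ ∧ Cyc F K φ.symm := by
  classical
  have hFf : Finite F := Finite.of_injective _ (algebraMap F K).injective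
  have hF1 := Fintype.ofFinite F
  have hK1 := Fintype.ofFinite K
  set q := Fintype.card F with hq
  set φ : K ≃ₐ[F] K := FiniteField.frobeniusAlgEquivOfAlgebraic F K with hφd
  have hφ : ∀ x, φ x = x ^ q := fun x => rfl
  have hcard : Fintype.card K = q ^ 4 := by
    rw [Module.card_eq_pow_finrank (K := F) (V := K), h]
  have hfour : ∀ x : K, φ (φ (φ (φ x))) = x := by
    intro x
    rw [hφ, hφ, hφ, hφ, ← pow_mul, ← pow_mul, ← pow_mul]
    have h1 : q * (q * (q * q)) = q ^ 4 := by ring
    rw [h1, ← hcard, FiniteField.pow_card]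
  have hnorm : ∀ x : K, algebraMap F K (Algebra.norm F x) = x * φ x * φ (φ x) * φ (φ (φ x)) := by
    intro x
    rw [FiniteField.algebraMap_norm_eq_prod_pow, h, Nat.card_eq_fintype_card, ← hq]
    rw [Finset.prod_range_succ, Finset.prod_range_succ, Finset.prod_range_succ, Finset.prod_range_succ,
      Finset.prod_range_zero]
    simp only [hφ]
    ring
  have hfix : ∀ x : K, φ x = x → ∃ c : F, algebraMap F K c = x := by
    intro x hx
    have h1 : x ∈ (⊥ : IntermediateField F K) := by
      rw [IsGalois.mem_bot_iff_fixed]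
      intro f
      obtain ⟨n, hn⟩ := (FiniteField.bijective_frobeniusAlgEquivOfAlgebraic_pow F K).2 f
      have hn' : f = φ ^ (n : ℕ) := hn.symm
      rw [hn']
      generalize (n : ℕ) = m
      induction m with
      | zero => rfl
      | succ m ih =>
        rw [pow_succ, AlgEquiv.mul_apply, hx]
        exact ih
    obtain ⟨c, hc⟩ := IntermediateField.mem_bot.1 h1
    exact ⟨c, hc⟩
  have hsq : ∀ x : K, φ (φ x) = x → IsSquare x := by
    intro x hx
    by_cases h2 : ringChar K = 2
    · exact FiniteField.isSquare_of_char_two h2 x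
    · by_cases hx0 : x = 0
      · rw [hx0]
        exact ⟨0, by simp⟩
      · rw [FiniteField.isSquare_iff h2 hx0, hcard]
        have hodd := FiniteField.odd_card_of_char_ne_two h2
        rw [hcard, Nat.pow_mod] at hodd
        have hq2 : q % 2 = 1 := by
          rcases Nat.mod_two_eq_zero_or_one q with h3 | h3
          · rw [h3] at hodd
            norm_num at hodd
          · exact h3
        rw [nm_arith hq2, pow_mul]
        have h3 : x ^ (q ^ 2 - 1) = 1 := by
          have hq0 : 0 < q ^ 2 := by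
            have : 0 < q := by omega
            positivity
          rw [hφ, hφ, ← pow_mul, ← pow_two] at hx
          have h4 : x ^ (q ^ 2 - 1) * x = 1 * x := by
            rw [← pow_succ, Nat.sub_add_cancel hq0, hx, one_mul]
          exact mul_right_cancel₀ hx0 h4
        rw [h3, one_pow]
  have hs : ∀ x, φ.symm x = φ (φ (φ x)) := by
    intro x
    rw [AlgEquiv.symm_apply_eq]
    exact (hfour x).symm
  refine ⟨φ, ⟨hfour, hnorm, hfix, hsq⟩, ⟨?_, ?_, ?_, ?_⟩⟩
  · intro x
    simp only [hs, hfour]
  · intro x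
    simp only [hs, hfour]
    rw [hnorm]
    ring
  · intro x hx
    apply hfix
    rw [AlgEquiv.symm_apply_eq] at hx
    exact hx.symm
  · intro x hx
    apply hsq
    simp only [hs, hfour] at hx
    exact hx

end Pool.Agent.Lib.NG5
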