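import Pool.Agent.Lib.NG5.Eight
import Pool.Agent.Lib.NG5.Four
import Pool.Agent.Lib.NG5.Key
import Pool.Agent.Lib.NG5.Bic
import Pool.Agent.Lib.NG5.Norm

/-!
# NG5 / Asm: the bicliques for a good parameter

PROOF IN WORDS. `φ` from `exists_cyc`, `σ, E` from `eight`, `W` from `four_points` for this `σ`; `E`, `W` are disjoint (`σ^2 y ≠ y` on `E`, `= y` on `W`), `U = E ∪ W` has 12 elements. Choose `A ⊆ E` with `a` elements (`a ≤ 8`, `Finset.exists_subset_card_eq`), `ι y = (α y)⁻¹`, `B = (U \ A).image ι ∪ {0}`: `ι` is injective and nonzero on `U`, so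
`card B = 12 - a + 1 = 13 - a`. `ν = -1/α^2`, `μ y = α^(-4)` for `y ≠ 0`, `μ 0 = 1`: `N(x - ι y) = N(x) α^(-4)` (`key`, `x ≠ y`), `N(x - 0) = N(x)`. `bic` gives `K_{a, 14-a}`; `card K = (card F)^4 ≥ 3^4 = 81 > a + (13-a) + a (13-a)` as `a (13-a) ≤ 42`: `13 + 42 = 55 < 81` (`2 ≠ 0` in `F`, so `F` has at least 3 elements).
`α ≠ 0` from `Good` (`e ≠ 0`).
-/

set_option autoImplicit false

namespace Pool.Agent.Lib.NG5

open SimpleGraph Pool.Agent.Lib.MP_f4a4e4_co.NGX

theorem asm {F K : Type} [Field F] [Field K] [Finite K] [Algebra F K] (hK : Module.finrank F K = 4) (α : F) (hg : Good F α)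
    (a b : ℕ) (ha : a ≤ 8) (hab : a + b = 14) :
    completeBipartiteGraph (Fin a) (Fin b) ⊑ NormGraph F K := by
  classical
  obtain ⟨φ, c1, c2⟩ := exists_cyc F K hK
  obtain ⟨σ, hσ, E, hE8, hEn, hE⟩ := eight φ c1 c2 α hg
  obtain ⟨W, hW4, hW⟩ := four_points σ hσ α hg
  have h2 := hg.1
  have hα : α ≠ 0 := by
    intro h0
    obtain ⟨e, he0, he⟩ := hg.2.2.1
    rw [h0, zero_mul, zero_mul, neg_zero] at he
    exact he0 ((pow_eq_zero_iff two_ne_zero).1 he)
  have hα' : algebraMap F K α ≠ 0 := fun h => hα ((algebraMap F K).injective (by rw [h, map_zero]))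
  have hdisj : Disjoint E W := Finset.disjoint_left.2 fun y h1 h2 => (hE y h1).2.2 (hW y h2).2.2
  have hU : (E ∪ W).card = 12 := by rw [Finset.card_union_of_disjoint hdisj, hE8, hW4]
  have hUy : ∀ y ∈ E ∪ W, y ≠ 0 ∧ σ y = algebraMap F K α * y + y⁻¹ := by
    intro y hy
    rcases Finset.mem_union.1 hy with h | h
    · exact ⟨(hE y h).1, (hE y h).2.1⟩
    · exact ⟨(hW y h).1, (hW y h).2.1⟩
  obtain ⟨A, hAE, hAc⟩ := Finset.exists_subset_card_eq (show a ≤ E.card by rw [hE8]; exact ha)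
  have hAU : A ⊆ E ∪ W := hAE.trans Finset.subset_union_left
  set ι : K → K := fun y => (algebraMap F K α * y)⁻¹ with hι
  have hinj : Function.Injective ι := by
    intro x y hxy
    exact mul_left_cancel₀ hα' (inv_injective hxy)
  have hι0 : ∀ y, y ≠ 0 → ι y ≠ 0 := fun y hy => inv_ne_zero (mul_ne_zero hα' hy)
  set B : Finset K := insert 0 (((E ∪ W) \ A).image ι) with hB
  have h0B : (0 : K) ∉ ((E ∪ W) \ A).image ι := by
    intro h
    obtain ⟨y, hy, hy0⟩ := Finset.mem_image.1 h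
    exact hι0 y (hUy y (Finset.mem_sdiff.1 hy).1).1 hy0
  have hBc : B.card = 13 - a := by
    rw [hB, Finset.card_insert_of_notMem h0B, Finset.card_image_of_injective _ hinj,
      Finset.card_sdiff_of_subset hAU, hU, hAc]
    omega
  have hkey : ∀ x ∈ A, ∀ y ∈ (E ∪ W) \ A, x ≠ ι y ∧ Algebra.norm F (x - ι y) = Algebra.norm F x * (α ^ 4)⁻¹ := by
    intro x hx y hy
    have hy' := Finset.mem_sdiff.1 hy
    have hxU := hUy x (hAU hx)
    have hyU := hUy y hy'.1
    exact key σ hσ α hα x y hxU.1 hyU.1 hxU.2 hyU.2 (fun h => hy'.2 (h ▸ hx))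
  have hF3 : 3 ≤ Nat.card F := by
    haveI : Finite F := Finite.of_injective (algebraMap F K) (algebraMap F K).injective
    haveI := Fintype.ofFinite F
    rw [Nat.card_eq_fintype_card]
    have h3 : ({0, 1, -1} : Finset F).card = 3 := by
      refine Finset.card_eq_three.2 ⟨0, 1, -1, zero_ne_one, (neg_ne_zero.2 one_ne_zero).symm, ?_, rfl⟩
      intro h
      apply h2
      have h5 : (1 : F) + 1 = 0 := by
        nth_rewrite 1 [h]
        exact neg_add_cancel 1
      rw [← one_add_one_eq_two]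
      exact h5
    rw [← h3]
    exact Finset.card_le_univ _
  have hK81 : 81 ≤ Nat.card K := by
    haveI : Module.Finite F K := Module.finite_of_finrank_pos (by rw [hK]; norm_num)
    rw [Module.natCard_eq_pow_finrank (K := F), hK]
    calc 81 = 3 ^ 4 := by norm_num
      _ ≤ Nat.card F ^ 4 := Nat.pow_le_pow_left hF3 4
  have h42 : ∀ a ≤ 8, a * (13 - a) ≤ 42 := by decide
  have main := bic hK A B (-(1 / α ^ 2)) (fun y => if y = 0 then 1 else (α ^ 4)⁻¹)
    (neg_ne_zero.2 (one_div_ne_zero (pow_ne_zero 2 hα)))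
    (by
      intro y _
      beta_reduce
      split_ifs
      · exact one_ne_zero
      · exact inv_ne_zero (pow_ne_zero 4 hα))
    (by
      intro x hx y hy
      rcases Finset.mem_insert.1 hy with h | h
      · rw [h]
        exact (hUy x (hAU hx)).1
      · obtain ⟨u, hu, rfl⟩ := Finset.mem_image.1 h
        exact (hkey x hx u hu).1)
    (by
      intro x hx y hy
      rcases Finset.mem_insert.1 hy with h | h
      · rw [h, sub_zero, hEn x (hAE hx), if_pos rfl, mul_one]
      · obtain ⟨u, hu, rfl⟩ := Finset.mem_image.1 h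
        rw [(hkey x hx u hu).2, hEn x (hAE hx), if_neg (hι0 u (hUy u (Finset.mem_sdiff.1 hu).1).1)])
    (by
      rw [hAc, hBc]
      have h6 := h42 a ha
      omega)
  have hb : B.card + 1 = b := by omega
  rw [hAc, hb] at main
  exact main

end Pool.Agent.Lib.NG5
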