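import Mathlib

/-!
# NG5 / Ker (Stepanov 3): linear algebra

PROOF IN WORDS. The linear map `(r, s) ↦ (∑_j (L_k r_j + a L'_k s_j) X^j)_{k < l}` from `(Fin J → degreeLT F A) × (Fin J → degreeLT F A)` (dimension `2 J A`; `degreeLTEquiv`, `Module.finrank_pi_fintype` or `finrank_fin_fun`) to
`∀ k : Fin l, degreeLT F (A + k M + J)` (dimension `∑ (A + k M + J)`) has a nonzero kernel (`LinearMap.ker_ne_bot_of_finrank_lt` or `LinearMap.exists_ne_zero_of_...`). Extend `r`, `s` by `0` for `j ≥ J`.
(Multiplication by `X^j`, `j < J`, maps `degreeLT F B` to `degreeLT F (B + J)`.)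
-/

set_option autoImplicit false

namespace Pool.Agent.Lib.NG5

open Polynomial

private theorem ker_mul {F : Type} [Field F] {B J j : ℕ} (hj : j < J) {r : F[X]} (hr : r ∈ degreeLT F B) : r * X ^ j ∈ degreeLT F (B + J) := by
  rw [mem_degreeLT, degree_lt_iff_coeff_zero] at hr ⊢
  intro m hm
  rw [coeff_mul_X_pow']
  split_ifs with h
  · exact hr _ (by omega)
  · rfl

private instance ker_fd {F : Type} [Field F] (n : ℕ) : FiniteDimensional F (degreeLT F n) := (degreeLTEquiv F n).symm.finiteDimensional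

private theorem ker_fr {F : Type} [Field F] (n : ℕ) : Module.finrank F (degreeLT F n) = n := by
  rw [(degreeLTEquiv F n).finrank_eq, Module.finrank_fin_fun]

/-- the linear map -/
private noncomputable def kerT {F : Type} [Field F] (A J : ℕ) (a : F) (L L' : F[X] →ₗ[F] F[X]) :
    ((Fin J → degreeLT F A) × (Fin J → degreeLT F A)) →ₗ[F] F[X] :=
  ∑ j : Fin J, (LinearMap.mulRight F (X ^ (j : ℕ) : F[X])).comp
    (L.comp ((degreeLT F A).subtype.comp ((LinearMap.proj j).comp (LinearMap.fst F (Fin J → degreeLT F A) (Fin J → degreeLT F A)))) +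
      (LinearMap.mulLeft F (C a)).comp
        (L'.comp ((degreeLT F A).subtype.comp ((LinearMap.proj j).comp (LinearMap.snd F (Fin J → degreeLT F A) (Fin J → degreeLT F A))))))

private theorem kerT_apply {F : Type} [Field F] (A J : ℕ) (a : F) (L L' : F[X] →ₗ[F] F[X]) (x : (Fin J → degreeLT F A) × (Fin J → degreeLT F A)) :
    kerT A J a L L' x = ∑ j : Fin J, (L (x.1 j : F[X]) + C a * L' (x.2 j : F[X])) * X ^ (j : ℕ) := by
  unfold kerT
  rw [LinearMap.sum_apply]
  rfl

theorem exists_ker {F : Type} [Field F] (l A J M : ℕ) (a : F) (L L' : ℕ → F[X] →ₗ[F] F[X])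
    (hL : ∀ k < l, ∀ r ∈ degreeLT F A, L k r ∈ degreeLT F (A + k * M))
    (hL' : ∀ k < l, ∀ r ∈ degreeLT F A, L' k r ∈ degreeLT F (A + k * M))
    (hc : ∑ k ∈ Finset.range l, (A + k * M + J) < 2 * J * A) :
    ∃ r s : ℕ → F[X], (∀ j, r j ∈ degreeLT F A) ∧ (∀ j, s j ∈ degreeLT F A) ∧ (∃ j < J, r j ≠ 0 ∨ s j ≠ 0) ∧
      ∀ k < l, ∑ j ∈ Finset.range J, (L k (r j) + C a * L' k (s j)) * X ^ j = 0 := by
  classical
  let T : ((Fin J → degreeLT F A) × (Fin J → degreeLT F A)) →ₗ[F] ((k : Fin l) → degreeLT F (A + k * M + J)) :=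
    LinearMap.pi fun k => LinearMap.codRestrict _ (kerT A J a (L k) (L' k)) fun x => by
      rw [kerT_apply]
      refine Submodule.sum_mem _ fun j _ => ker_mul j.2 (Submodule.add_mem _ (hL k k.2 _ (x.1 j).2) ?_)
      rw [C_mul']
      exact Submodule.smul_mem _ _ (hL' k k.2 _ (x.2 j).2)
  have hfr : Module.finrank F ((k : Fin l) → degreeLT F (A + k * M + J)) <
      Module.finrank F ((Fin J → degreeLT F A) × (Fin J → degreeLT F A)) := by
    rw [Module.finrank_pi_fintype, Module.finrank_prod, Module.finrank_pi_fintype]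
    simp only [ker_fr, Finset.sum_const, Finset.card_univ, Fintype.card_fin, smul_eq_mul]
    rw [← Finset.sum_range fun k => A + k * M + J]
    calc _ < 2 * J * A := hc
      _ = _ := by ring
  obtain ⟨x, hx, hx0⟩ := (Submodule.ne_bot_iff _).1 (LinearMap.ker_ne_bot_of_finrank_lt (f := T) hfr)
  refine ⟨fun j => if h : j < J then (x.1 ⟨j, h⟩ : F[X]) else 0, fun j => if h : j < J then (x.2 ⟨j, h⟩ : F[X]) else 0, fun j => ?_, fun j => ?_, ?_,
    fun k hk => ?_⟩
  · by_cases h : j < J
    · simp only [h, dif_pos]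
      exact (x.1 ⟨j, h⟩).2
    · simp only [h]
      exact Submodule.zero_mem _
  · by_cases h : j < J
    · simp only [h, dif_pos]
      exact (x.2 ⟨j, h⟩).2
    · simp only [h]
      exact Submodule.zero_mem _
  · by_contra hc
    push Not at hc
    refine hx0 (Prod.ext (funext fun j => Subtype.ext ?_) (funext fun j => Subtype.ext ?_))
    · have := (hc j j.2).1
      rw [dif_pos j.2] at this
      exact this
    · have := (hc j j.2).2
      rw [dif_pos j.2] at this
      exact this
  · have h1 : kerT A J a (L k) (L' k) x = 0 := by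
      have h2 := congrFun (LinearMap.mem_ker.1 hx) ⟨k, hk⟩
      exact congrArg Subtype.val h2
    rw [kerT_apply] at h1
    rw [Finset.sum_range]
    refine Eq.trans (Finset.sum_congr rfl fun j _ => ?_) h1
    beta_reduce
    rw [dif_pos j.2, dif_pos j.2]

end Pool.Agent.Lib.NG5
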