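import Mathlib

/-!
# NG5 / Van (Stepanov 2): the auxiliary polynomial does not vanish

PROOF IN WORDS. `q = card F`, `G = f^((q-1)/2)`, `m = natDegree f`. Induction on `J`. Let `R = ∑ r_j X^(jq)`, `S = ∑ s_j X^(jq)`: `R = -(S G)`, so `f R^2 = f S^2 G^2 = S^2 f^q` (`q` odd) and `f^q = expand F q f`
(`FiniteField.expand_card`) `= C (f.eval 0)` modulo `X^q`. Modulo `X^q`: `f r_0^2 = C (f.eval 0) s_0^2`, both sides have degree `< m + 2 A ≤ q` (if `A = 0` all `r_j, s_j` are `0`), so they are equal. If `r_0 = 0` then `s_0 = 0` and conversely.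
If `r_0 ≠ 0`: `r_0^2 ∣ s_0^2` (the constant is a unit), so `r_0 ∣ s_0` (`pow_dvd_pow_iff`, `F[X]` is a GCD/unique factorisation domain), `s_0 = r_0 g`, `f = C (f.eval 0) g^2`, against `hns`.
So `r_0 = s_0 = 0`; cancel `X^q` and apply the induction hypothesis to the shifted sequences.
-/

set_option autoImplicit false

namespace Pool.Agent.Lib.NG5

open Polynomial

private lemma van_dvd {F : Type} [Field F] [Fintype F] (f : F[X]) :
    X ^ Fintype.card F ∣ f ^ Fintype.card F - C (f.eval 0) := by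
  have h1 := divX_mul_X_add f
  have h2 : f ^ Fintype.card F = expand F (Fintype.card F) (divX f) * X ^ Fintype.card F + C (f.coeff 0) := by
    rw [← FiniteField.expand_card]
    conv_lhs => rw [← h1]
    rw [map_add, map_mul, expand_X, expand_C]
  rw [h2, ← coeff_zero_eq_eval_zero, add_sub_cancel_right]
  exact Dvd.intro_left _ rfl

private lemma van_sq {F : Type} [Field F] (a b : F[X]) (h : a ^ 2 ∣ b ^ 2) : a ∣ b := by
  exact (UniqueFactorizationMonoid.pow_dvd_pow_iff_dvd (by norm_num)).1 h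

private lemma van_step {F : Type} [Field F] [Fintype F] (hodd : Fintype.card F % 2 = 1) (f : F[X]) (hf0 : f.eval 0 ≠ 0)
    (hns : ∀ (c : F) (g : F[X]), f ≠ C c * g ^ 2) (A : ℕ) (hA : 2 * A + f.natDegree ≤ Fintype.card F)
    (r s : F[X]) (hr : r ∈ degreeLT F A) (hs : s ∈ degreeLT F A)
    (h : X ^ Fintype.card F ∣ r + s * f ^ ((Fintype.card F - 1) / 2)) : r = 0 ∧ s = 0 := by
  rcases Nat.eq_zero_or_pos A with hA0 | hA0
  · subst hA0
    rw [mem_degreeLT] at hr hs
    constructor
    · by_contra hc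
      rw [degree_eq_natDegree hc] at hr
      have := Nat.cast_lt.1 hr
      omega
    · by_contra hc
      rw [degree_eq_natDegree hc] at hs
      have := Nat.cast_lt.1 hs
      omega
  have hG : f * (f ^ ((Fintype.card F - 1) / 2)) ^ 2 = f ^ Fintype.card F := by
    rw [← pow_mul, ← pow_succ']
    congr 1
    omega
  have h1 : X ^ Fintype.card F ∣ f * r ^ 2 - C (f.eval 0) * s ^ 2 := by
    have e : f * r ^ 2 - C (f.eval 0) * s ^ 2 = (r + s * f ^ ((Fintype.card F - 1) / 2)) * (f * (r - s * f ^ ((Fintype.card F - 1) / 2)))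
        + (f ^ Fintype.card F - C (f.eval 0)) * s ^ 2 := by
      rw [← hG]
      ring
    rw [e]
    exact dvd_add (Dvd.dvd.mul_right h _) (Dvd.dvd.mul_right (van_dvd f) _)
  have hnd : ∀ t : F[X], t ∈ degreeLT F A → t.natDegree ≤ A - 1 := by
    intro t ht
    rw [mem_degreeLT] at ht
    rcases eq_or_ne t 0 with rfl | hc
    · simp
    · rw [degree_eq_natDegree hc] at ht
      have := Nat.cast_lt.1 ht
      omega
  have h2 : f * r ^ 2 - C (f.eval 0) * s ^ 2 = 0 := by
    apply eq_zero_of_dvd_of_natDegree_lt h1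
    rw [natDegree_X_pow]
    have h3 : (f * r ^ 2).natDegree ≤ f.natDegree + 2 * (A - 1) := by
      refine natDegree_mul_le.trans ?_
      have := (natDegree_pow_le (p := r) (n := 2)).trans (Nat.mul_le_mul_left 2 (hnd r hr))
      omega
    have h4 : (C (f.eval 0) * s ^ 2).natDegree ≤ 2 * (A - 1) := by
      refine (natDegree_C_mul_le _ _).trans ?_
      exact (natDegree_pow_le (p := s) (n := 2)).trans (Nat.mul_le_mul_left 2 (hnd s hs))
    have h5 := natDegree_sub_le (f * r ^ 2) (C (f.eval 0) * s ^ 2)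
    have h6 := max_le (h3) (h4.trans (Nat.le_add_left _ f.natDegree))
    omega
  have h3 : f * r ^ 2 = C (f.eval 0) * s ^ 2 := sub_eq_zero.1 h2
  have hC : C (f.eval 0) ≠ (0 : F[X]) := by
    rw [Ne, C_eq_zero]
    exact hf0
  rcases eq_or_ne r 0 with rfl | hr0
  · refine ⟨rfl, ?_⟩
    rw [zero_pow (by norm_num), mul_zero] at h3
    rcases mul_eq_zero.1 h3.symm with h4 | h4
    · exact absurd h4 hC
    · exact pow_eq_zero_iff (by norm_num) |>.1 h4
  · exfalso
    have h4 : r ^ 2 ∣ s ^ 2 := by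
      have h5 : s ^ 2 = C (f.eval 0)⁻¹ * f * r ^ 2 := by
        rw [mul_assoc, h3, ← mul_assoc, ← C_mul, inv_mul_cancel₀ hf0, C_1, one_mul]
      rw [h5]
      exact Dvd.intro_left _ rfl
    obtain ⟨g, rfl⟩ := van_sq r s h4
    apply hns (f.eval 0) g
    have h6 : f * r ^ 2 = C (f.eval 0) * g ^ 2 * r ^ 2 := by
      rw [h3]
      ring
    exact mul_right_cancel₀ (pow_ne_zero 2 hr0) h6

theorem nonvanish {F : Type} [Field F] [Fintype F] (hodd : Fintype.card F % 2 = 1) (f : F[X]) (hf0 : f.eval 0 ≠ 0)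
    (hns : ∀ (c : F) (g : F[X]), f ≠ C c * g ^ 2) (A : ℕ) (hA : 2 * A + f.natDegree ≤ Fintype.card F) (J : ℕ)
    (r s : ℕ → F[X]) (hr : ∀ j, r j ∈ degreeLT F A) (hs : ∀ j, s j ∈ degreeLT F A)
    (h : ∑ j ∈ Finset.range J, (r j + s j * f ^ ((Fintype.card F - 1) / 2)) * X ^ (j * Fintype.card F) = 0) :
    ∀ j < J, r j = 0 ∧ s j = 0 := by
  induction J generalizing r s with
  | zero => intro j hj; omega
  | succ J ih =>
    rw [Finset.sum_range_succ'] at h
    have e1 : ∑ j ∈ Finset.range J, (r (j + 1) + s (j + 1) * f ^ ((Fintype.card F - 1) / 2)) * X ^ ((j + 1) * Fintype.card F) =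
        X ^ Fintype.card F * ∑ j ∈ Finset.range J, (r (j + 1) + s (j + 1) * f ^ ((Fintype.card F - 1) / 2)) * X ^ (j * Fintype.card F) := by
      rw [Finset.mul_sum]
      refine Finset.sum_congr rfl fun j _ => ?_
      have e2 : (X : F[X]) ^ ((j + 1) * Fintype.card F) = X ^ Fintype.card F * X ^ (j * Fintype.card F) := by
        rw [add_mul, one_mul, pow_add, mul_comm]
      rw [e2]
      ring
    rw [e1, zero_mul, pow_zero, mul_one] at h
    have h0 : r 0 = 0 ∧ s 0 = 0 := by
      refine van_step hodd f hf0 hns A hA (r 0) (s 0) (hr 0) (hs 0) ?_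
      rw [eq_neg_of_add_eq_zero_right h]
      exact (Dvd.intro _ rfl).neg_right
    rw [h0.1, h0.2, zero_mul, add_zero, add_zero] at h
    have h1 := (mul_eq_zero.1 h).resolve_left (pow_ne_zero _ X_ne_zero)
    have h2 := ih (fun j => r (j + 1)) (fun j => s (j + 1)) (fun j => hr (j + 1)) (fun j => hs (j + 1)) h1
    intro j hj
    rcases Nat.eq_zero_or_pos j with rfl | hj0
    · exact h0
    · obtain ⟨i, rfl⟩ : ∃ i, j = i + 1 := ⟨j - 1, by omega⟩
      exact h2 i (by omega)

end Pool.Agent.Lib.NG5
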