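import Pool.Agent.Lib.NG5.Quo
import Pool.Agent.Lib.NG5.Van
import Pool.Agent.Lib.NG5.Ker

/-!
# NG5 / Axp (Stepanov 4): the auxiliary polynomial

PROOF IN WORDS. `q = card F`, `h = (q-1)/2`, `G = f^h`, `m = natDegree f`, `f ≠ 0` (by `hns 0 1` or `hf0`). For `k < l` let `L k` from `exists_quo f l k` and `L' k` from `exists_quo f (l + h) k` (`k ≤ l`; take `0` for `k ≥ l`). `exists_ker` with `M = m - 1` gives `r, s`.
`R = ∑_j (r_j + s_j G) X^(jq) f^l`. `R ≠ 0` by `nonvanish` (`f^l ≠ 0`). Degree: each term `≤ l m + max(A, A + m h) + (J-1) q`. Let `G(x) = a` at `x` (`f.eval x ^ h = a`). Put `Rx = ∑_j C (x^j) (f^l r_j + f^(l+h) s_j)`.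
For `k < l`: `E^k Rx = ∑_j C (x^j) (f^(l-k) L_k r_j + f^(l+h-k) L'_k s_j)`, its value at `x` is `f(x)^(l-k) ∑_j x^j (L_k r_j (x) + f(x)^h L'_k s_j (x)) = f(x)^(l-k) (the k-th relation of exists_ker at x) = 0`. So `(X - C x)^l ∣ Rx` (Taylor: `Polynomial.taylor_coeff` is the
Hasse derivative at `x`, `X_sub_C_pow_dvd_iff`, `X_pow_dvd_iff`). And `R - Rx = ∑_j (X^(jq) - C (x^j)) (..)`, `X^(jq) - C(x^j)` is divisible by `X^q - C x = (X - C x)^q` (`x^q = x`, `sub_pow_expChar_pow` or `FiniteField` lemmas, characteristic `p`, `q = p^n`), hence by `(X - C x)^l` (`l ≤ q`).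
-/

set_option autoImplicit false

namespace Pool.Agent.Lib.NG5

open Polynomial

private lemma axp_dvd {F : Type} [Field F] (p : F[X]) (x : F) (l : ℕ) (h : ∀ k < l, (hasseDeriv k p).eval x = 0) :
    (X - C x) ^ l ∣ p := by
  rw [X_sub_C_pow_dvd_iff, ← taylor_apply, X_pow_dvd_iff]
  intro d hd
  rw [taylor_coeff]
  exact h d hd

private lemma axp_frob {F : Type} [Field F] [Fintype F] (x : F) :
    (X - C x : F[X]) ^ Fintype.card F = X ^ Fintype.card F - C x := by
  rw [← FiniteField.expand_card, map_sub, expand_X, expand_C]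

private lemma axp_pow {F : Type} [Field F] [Fintype F] (x : F) (j l : ℕ) (hl : l ≤ Fintype.card F) :
    (X - C x : F[X]) ^ l ∣ X ^ (j * Fintype.card F) - C (x ^ j) := by
  refine (pow_dvd_pow _ hl).trans ?_
  rw [axp_frob, mul_comm j, pow_mul, C_pow]
  exact sub_dvd_pow_sub_pow _ _ _

private lemma axp_deg {F : Type} [Field F] {A : ℕ} {r : F[X]} (hr : r ∈ degreeLT F A) : r.natDegree ≤ A := by
  rw [mem_degreeLT] at hr
  exact natDegree_le_of_degree_le hr.le

theorem axp {F : Type} [Field F] [Fintype F] (hodd : Fintype.card F % 2 = 1) (f : F[X]) (hf0 : f.eval 0 ≠ 0)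
    (hns : ∀ (c : F) (g : F[X]), f ≠ C c * g ^ 2) (l A J : ℕ) (hl : l ≤ Fintype.card F)
    (hA : 2 * A + f.natDegree ≤ Fintype.card F)
    (hc : ∑ k ∈ Finset.range l, (A + k * (f.natDegree - 1) + J) < 2 * J * A) (a : F) :
    ∃ R : F[X], R ≠ 0 ∧
      R.natDegree ≤ l * f.natDegree + A + f.natDegree * ((Fintype.card F - 1) / 2) + (J - 1) * Fintype.card F ∧
      ∀ x : F, f.eval x ^ ((Fintype.card F - 1) / 2) = a → (X - C x) ^ l ∣ R := by
  classical
  have hf : f ≠ 0 := by
    rintro rfl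
    exact hf0 eval_zero
  have hch : ∀ k : ℕ, ∃ L : F[X] →ₗ[F] F[X], k < l → ((∀ r, hasseDeriv k (f ^ l * r) = f ^ (l - k) * L r) ∧
      ∀ (A : ℕ) (r : F[X]), r ∈ degreeLT F A → L r ∈ degreeLT F (A + k * (f.natDegree - 1))) := by
    intro k
    by_cases hk : k < l
    · obtain ⟨L, hL⟩ := exists_quo f hf l k hk.le
      exact ⟨L, fun _ => hL⟩
    · exact ⟨0, fun h => absurd h hk⟩
  have hch' : ∀ k : ℕ, ∃ L : F[X] →ₗ[F] F[X], k < l →
      ((∀ r, hasseDeriv k (f ^ (l + (Fintype.card F - 1) / 2) * r) = f ^ (l + (Fintype.card F - 1) / 2 - k) * L r) ∧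
      ∀ (A : ℕ) (r : F[X]), r ∈ degreeLT F A → L r ∈ degreeLT F (A + k * (f.natDegree - 1))) := by
    intro k
    by_cases hk : k < l
    · obtain ⟨L, hL⟩ := exists_quo f hf (l + (Fintype.card F - 1) / 2) k (by omega)
      exact ⟨L, fun _ => hL⟩
    · exact ⟨0, fun h => absurd h hk⟩
  choose L hL using hch
  choose L' hL' using hch'
  obtain ⟨r, s, hr, hs, ⟨j0, hj0, hne⟩, hker⟩ := exists_ker l A J (f.natDegree - 1) a L L'
    (fun k hk r hr => (hL k hk).2 A r hr) (fun k hk r hr => (hL' k hk).2 A r hr) hc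
  refine ⟨f ^ l * ∑ j ∈ Finset.range J, (r j + s j * f ^ ((Fintype.card F - 1) / 2)) * X ^ (j * Fintype.card F), ?_, ?_, ?_⟩
  · intro h0
    rcases mul_eq_zero.1 h0 with h1 | h1
    · exact pow_ne_zero _ hf h1
    · have h2 := nonvanish hodd f hf0 hns A hA J r s hr hs h1 j0 hj0
      rcases hne with h3 | h3
      · exact h3 h2.1
      · exact h3 h2.2
  · have h1 : (∑ j ∈ Finset.range J, (r j + s j * f ^ ((Fintype.card F - 1) / 2)) * X ^ (j * Fintype.card F)).natDegree ≤
        A + f.natDegree * ((Fintype.card F - 1) / 2) + (J - 1) * Fintype.card F := by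
      refine natDegree_sum_le_of_forall_le _ _ fun j hj => ?_
      rw [Finset.mem_range] at hj
      refine natDegree_mul_le.trans (Nat.add_le_add ?_ ?_)
      · refine (natDegree_add_le _ _).trans (max_le ((axp_deg (hr j)).trans (Nat.le_add_right _ _)) ?_)
        refine natDegree_mul_le.trans (Nat.add_le_add (axp_deg (hs j)) ?_)
        refine natDegree_pow_le.trans ?_
        rw [mul_comm]
      · rw [natDegree_X_pow]
        exact Nat.mul_le_mul_right _ (by omega)
    refine natDegree_mul_le.trans ?_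
    have h2 : (f ^ l).natDegree ≤ l * f.natDegree := natDegree_pow_le
    calc _ ≤ l * f.natDegree + (A + f.natDegree * ((Fintype.card F - 1) / 2) + (J - 1) * Fintype.card F) := Nat.add_le_add h2 h1
      _ = _ := by ring
  · intro x hx
    have hR : f ^ l * ∑ j ∈ Finset.range J, (r j + s j * f ^ ((Fintype.card F - 1) / 2)) * X ^ (j * Fintype.card F) =
        ∑ j ∈ Finset.range J, (X ^ (j * Fintype.card F) - C (x ^ j)) * (f ^ l * r j + f ^ (l + (Fintype.card F - 1) / 2) * s j) +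
        ∑ j ∈ Finset.range J, C (x ^ j) * (f ^ l * r j + f ^ (l + (Fintype.card F - 1) / 2) * s j) := by
      rw [← Finset.sum_add_distrib, Finset.mul_sum]
      refine Finset.sum_congr rfl fun j _ => ?_
      rw [pow_add]
      ring
    rw [hR]
    refine dvd_add (Finset.dvd_sum fun j _ => Dvd.dvd.mul_right (axp_pow x j l hl) _) (axp_dvd _ x l fun k hk => ?_)
    have h1 : hasseDeriv k (∑ j ∈ Finset.range J, C (x ^ j) * (f ^ l * r j + f ^ (l + (Fintype.card F - 1) / 2) * s j)) =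
        ∑ j ∈ Finset.range J, C (x ^ j) * (f ^ (l - k) * L k (r j) + f ^ (l + (Fintype.card F - 1) / 2 - k) * L' k (s j)) := by
      rw [map_sum]
      refine Finset.sum_congr rfl fun j _ => ?_
      rw [C_mul', map_smul, map_add, (hL k hk).1, (hL' k hk).1, C_mul']
    have h2 := congrArg (eval x) (hker k hk)
    rw [eval_finsetSum, eval_zero] at h2
    rw [h1, eval_finsetSum]
    have h3 : ∀ j ∈ Finset.range J, eval x (C (x ^ j) * (f ^ (l - k) * L k (r j) + f ^ (l + (Fintype.card F - 1) / 2 - k) * L' k (s j))) =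
        (f.eval x) ^ (l - k) * eval x ((L k (r j) + C a * L' k (s j)) * X ^ j) := by
      intro j _
      rw [show l + (Fintype.card F - 1) / 2 - k = (l - k) + (Fintype.card F - 1) / 2 by omega, pow_add]
      simp only [eval_mul, eval_add, eval_pow, eval_C, eval_X]
      rw [hx]
      ring
    rw [Finset.sum_congr rfl h3, ← Finset.mul_sum, h2, mul_zero]

end Pool.Agent.Lib.NG5
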