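import Pool.Agent.Lib.NG5.Axp

/-!
# NG5 / Cnt (Stepanov 5): the number of `x` with `f(x)^((q-1)/2) = a`

PROOF IN WORDS. `q = card F`, `m = natDegree f ≥ 1` (if `m = 0` then `f = C c * 1^2`), `l = Nat.sqrt q`, `A = (q - m)/2`, `J = (l + m + 2)/2` (floors). Then `2A ≥ q-m-1`, `l + m + 1 ≤ 2J ≤ l + m + 2`. Condition of `axp`:
`∑_{k<l} (A + k (m-1) + J) ≤ l A + (m-1) l^2/2 + l J` and `2JA - lJ - lA = J (2A - l) - l A ≥ (m+1) A - l^2/2 - (m+1) l/2` (`2A ≥ l`), and `(m+1) A ≥ (m+1)(q-m-1)/2 > m q/2 + (m+1) l/2 ≥ m l^2/2 + (m+1) l/2`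
as `q > (m+1)^2 + (m+1) √q` (from `√q ≥ 2(m+1)`, `l^2 ≤ q`). The product of the `(X - x)^l` over the set divides `R` (pairwise coprime; or count roots with multiplicity), so `l N ≤ natDegree R ≤ l m + q/2 + m q/2 + (l+m) q/2`, so
`N ≤ q/2 + m + (2m+1) q/(2l)` and `q/(2l) ≤ √q` (`l ≥ √q - 1 ≥ √q/2`): `N ≤ q/2 + (3m+1) √q`. Cast to `ℝ` as late as possible.
-/

set_option autoImplicit false

namespace Pool.Agent.Lib.NG5

open Polynomial

private theorem cn_sum (l A J M : ℕ) : 2 * ∑ k ∈ Finset.range l, (A + k * M + J) = 2 * l * (A + J) + l * (l - 1) * M := by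
  have h1 : ∑ k ∈ Finset.range l, (A + k * M + J) = l * (A + J) + (∑ k ∈ Finset.range l, k) * M := by
    rw [Finset.sum_mul]
    have h2 : l * (A + J) = ∑ _k ∈ Finset.range l, (A + J) := by
      rw [Finset.sum_const, Finset.card_range, smul_eq_mul]
    rw [h2, ← Finset.sum_add_distrib]
    exact Finset.sum_congr rfl fun k _ => by ring
  rw [h1, mul_add, ← mul_assoc 2 (∑ k ∈ Finset.range l, k) M, mul_comm 2 (∑ k ∈ Finset.range l, k), Finset.sum_range_id_mul_two]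
  ring

private theorem cn_cond (q m l A J : ℕ) (hm : 1 ≤ m) (hq : 4 * (m + 1) ^ 2 ≤ q) (hl1 : l * l ≤ q) (hl4 : 4 ≤ l)
    (hA : q ≤ 2 * A + m + 1) (hJ : l + m + 1 ≤ 2 * J) (hJ2 : 2 * J ≤ l + m + 2) :
    ∑ k ∈ Finset.range l, (A + k * (m - 1) + J) < 2 * J * A := by
  have h1 := cn_sum l A J (m - 1)
  obtain ⟨M, rfl⟩ : ∃ M, m = M + 1 := ⟨m - 1, by omega⟩
  obtain ⟨L, rfl⟩ : ∃ L, l = L + 1 := ⟨l - 1, by omega⟩
  have e1 : M + 1 - 1 = M := by omega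
  have e2 : L + 1 - 1 = L := by omega
  rw [e1] at h1 ⊢
  rw [e2] at h1
  have h2 : 2 * (L + 1) * (A + J) + (L + 1) * L * M < 2 * (2 * J * A) := by
    zify at *
    have hqL : ((L : ℤ) + 1) * (L + 1) ≤ q := hl1
    have hA' : (q : ℤ) - (M + 2) ≤ 2 * A := by linarith
    have hql : (L : ℤ) + 1 ≤ 2 * A := by nlinarith
    -- `(2J) (2A - l) ≥ (l + m + 1) (2A - l)`
    have h3 : ((L : ℤ) + 1 + (M + 1) + 1) * (2 * A - (L + 1)) ≤ 2 * J * (2 * A - (L + 1)) :=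
      mul_le_mul_of_nonneg_right hJ (by linarith)
    have h4 : ((M : ℤ) + 2) * (q - (M + 2)) ≤ ((M : ℤ) + 2) * (2 * A) :=
      mul_le_mul_of_nonneg_left hA' (by positivity)
    have h5 : ((M : ℤ) + 1) * (((L : ℤ) + 1) * (L + 1)) ≤ ((M : ℤ) + 1) * q :=
      mul_le_mul_of_nonneg_left hqL (by positivity)
    have h6 : 4 * ((L : ℤ) + 1) ≤ ((L : ℤ) + 1) * (L + 1) := mul_le_mul_of_nonneg_right hl4 (by positivity)
    nlinarith
  omega

private theorem cn_roots {F : Type} [Field F] [DecidableEq F] (T : Finset F) (R : F[X]) (hR : R ≠ 0) (l : ℕ)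
    (h : ∀ x ∈ T, (X - C x) ^ l ∣ R) : l * T.card ≤ R.natDegree := by
  have h1 : (∏ x ∈ T, (X - C x) ^ l) ∣ R := by
    refine Finset.prod_dvd_of_coprime ?_ h
    intro x _ y _ hxy
    exact (Polynomial.isCoprime_X_sub_C_of_isUnit_sub (sub_ne_zero.2 hxy).isUnit).pow
  have h2 := natDegree_le_of_dvd h1 hR
  rw [natDegree_prod_of_monic _ _ (fun x _ => (monic_X_sub_C x).pow l)] at h2
  have h3 : ∀ x ∈ T, ((X - C x) ^ l).natDegree = l := by
    intro x _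
    rw [natDegree_pow, natDegree_X_sub_C, mul_one]
  rw [Finset.sum_congr rfl h3, Finset.sum_const, smul_eq_mul, mul_comm] at h2
  exact h2

theorem count_le {F : Type} [Field F] [Fintype F] [DecidableEq F] (hodd : Fintype.card F % 2 = 1) (f : F[X])
    (hf0 : f.eval 0 ≠ 0) (hns : ∀ (c : F) (g : F[X]), f ≠ C c * g ^ 2)
    (hq : 4 * (f.natDegree + 1) ^ 2 ≤ Fintype.card F) (a : F) :
    ((Finset.univ.filter fun x : F => f.eval x ^ ((Fintype.card F - 1) / 2) = a).card : ℝ) ≤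
      Fintype.card F / 2 + (3 * f.natDegree + 2) * Real.sqrt (Fintype.card F) := by
  have hm : 1 ≤ f.natDegree := by
    rcases Nat.eq_zero_or_pos f.natDegree with h | h
    · exfalso
      rw [natDegree_eq_zero] at h
      obtain ⟨c, hc⟩ := h
      exact hns c 1 (by rw [one_pow, mul_one, hc])
    · exact h
  obtain ⟨q, hqq⟩ : ∃ q, q = Fintype.card F := ⟨_, rfl⟩
  obtain ⟨m, hmm⟩ : ∃ m, m = f.natDegree := ⟨_, rfl⟩
  obtain ⟨l, hll⟩ : ∃ l, l = Nat.sqrt q := ⟨_, rfl⟩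
  have hl1 : l * l ≤ q := hll ▸ Nat.sqrt_le q
  have hl2 : q < (l + 1) * (l + 1) := hll ▸ Nat.lt_succ_sqrt q
  rw [← hmm] at hm
  rw [← hqq, ← hmm] at hq
  have hq16 : 16 ≤ q := by nlinarith
  have hl4 : 4 ≤ l := by
    by_contra hcon
    have h3 : l ≤ 3 := by omega
    have h4 : (l + 1) * (l + 1) ≤ 4 * 4 := Nat.mul_le_mul (by omega) (by omega)
    omega
  have hmq : m ≤ q := by nlinarith
  have hlq : l ≤ q := by nlinarith
  obtain ⟨A, hA⟩ : ∃ A, A = (q - m) / 2 := ⟨_, rfl⟩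
  obtain ⟨J, hJ⟩ : ∃ J, J = (l + m + 2) / 2 := ⟨_, rfl⟩
  have hA1 : 2 * A + m ≤ q := by omega
  have hA2 : q ≤ 2 * A + m + 1 := by omega
  have hJ1 : l + m + 1 ≤ 2 * J := by omega
  have hJ2 : 2 * J ≤ l + m + 2 := by omega
  have hc := cn_cond q m l A J hm hq hl1 hl4 hA2 hJ1 hJ2
  obtain ⟨R, hR0, hR1, hR2⟩ := axp hodd f hf0 hns l A J (by rw [← hqq]; exact hlq) (by rw [← hqq, ← hmm]; exact hA1)
    (by rw [← hmm]; exact hc) a
  set T := Finset.univ.filter fun x : F => f.eval x ^ ((Fintype.card F - 1) / 2) = a with hT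
  have h5 := cn_roots T R hR0 l fun x hx => hR2 x (Finset.mem_filter.1 hx).2
  rw [← hqq, ← hmm] at hR1
  rw [← hqq, ← hmm]
  have h6 : l * T.card ≤ l * m + A + m * ((q - 1) / 2) + (J - 1) * q := h5.trans hR1
  -- real numbers
  have b1 : ((A : ℕ) : ℝ) ≤ (q : ℝ) / 2 := by
    have : 2 * A ≤ q := by omega
    have h7 : (2 : ℝ) * A ≤ q := by exact_mod_cast this
    linarith
  have b2 : (((q - 1) / 2 : ℕ) : ℝ) ≤ (q : ℝ) / 2 := by
    have : 2 * ((q - 1) / 2) ≤ q := by omega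
    have h7 : (2 : ℝ) * (((q - 1) / 2 : ℕ) : ℝ) ≤ q := by exact_mod_cast this
    linarith
  have b3 : ((J - 1 : ℕ) : ℝ) ≤ ((l : ℝ) + m) / 2 := by
    have : 2 * (J - 1) ≤ l + m := by omega
    have h7 : (2 : ℝ) * ((J - 1 : ℕ) : ℝ) ≤ (l : ℝ) + m := by exact_mod_cast this
    linarith
  have b4 : (l : ℝ) * T.card ≤ l * m + A + m * (((q - 1) / 2 : ℕ) : ℝ) + ((J - 1 : ℕ) : ℝ) * q := by exact_mod_cast h6
  have hq0 : (0 : ℝ) ≤ q := Nat.cast_nonneg q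
  have hm0 : (0 : ℝ) ≤ m := Nat.cast_nonneg m
  have hl0 : (0 : ℝ) < l := by
    have : 0 < l := by omega
    exact_mod_cast this
  set s : ℝ := Real.sqrt q with hs
  have hs0 : 0 ≤ s := Real.sqrt_nonneg _
  have hss : s * s = q := Real.mul_self_sqrt hq0
  have hs4 : 4 ≤ s := by
    rw [hs]
    refine Real.le_sqrt_of_sq_le ?_
    have : (16 : ℝ) ≤ q := by exact_mod_cast hq16
    linarith
  have hsl : s ≤ (l : ℝ) + 1 := by
    rw [hs]
    refine Real.sqrt_le_iff.2 ⟨by positivity, ?_⟩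
    have : (q : ℝ) ≤ ((l : ℝ) + 1) * (l + 1) := by exact_mod_cast hl2.le
    linarith
  have hsl2 : s ≤ 2 * l := by linarith
  have b5 : (l : ℝ) * T.card ≤ l * m + q / 2 + m * (q / 2) + ((l : ℝ) + m) / 2 * q := by
    have c1 := mul_le_mul_of_nonneg_left b2 hm0
    have c2 := mul_le_mul_of_nonneg_right b3 hq0
    linarith
  have b6 : (q : ℝ) ≤ 2 * l * s := by
    rw [← hss]
    exact mul_le_mul_of_nonneg_right hsl2 hs0
  have b7 : (l : ℝ) * T.card ≤ l * (m + q / 2 + (2 * m + 1) * s) := by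
    have c3 : (2 * (m : ℝ) + 1) * q ≤ (2 * m + 1) * (2 * l * s) := mul_le_mul_of_nonneg_left b6 (by positivity)
    linarith
  have b8 := le_of_mul_le_mul_left b7 hl0
  have b9 : (m : ℝ) ≤ (m + 1) * s := by nlinarith
  linarith

end Pool.Agent.Lib.NG5
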