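import Mathlib

/-!
# NG5: bicliques of the projective norm graph NG(q, 5) for every large odd q, definitions

`K` has degree 4 over the finite field `F`; `σ` is the Frobenius map or its inverse (`Cyc`). For `α` in `F` the set `U` of all `y` in `K` with `σ y = α y + 1/y` satisfies
`N(x - 1/(α y)) = N(x)/α^4` for `x ≠ y`. `Good F α` gives 12 elements of `U`, eight of them with the same norm.
-/

set_option autoImplicit false

namespace Pool.Agent.Lib.NG5

open Polynomial

/-- what is used of the Frobenius automorphism of an extension of degree 4 of a finite field, and of its inverse -/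
structure Cyc (F K : Type) [Field F] [Field K] [Algebra F K] (σ : K ≃ₐ[F] K) : Prop where
  four : ∀ x : K, σ (σ (σ (σ x))) = x
  norm : ∀ x : K, algebraMap F K (Algebra.norm F x) = x * σ x * σ (σ x) * σ (σ (σ x))
  fix : ∀ x : K, σ x = x → ∃ c : F, algebraMap F K c = x
  sq : ∀ x : K, σ (σ x) = x → IsSquare x

/-- the conditions on the parameter -/
def Good (F : Type) [Field F] (α : F) : Prop :=
  (2 : F) ≠ 0 ∧ ¬ IsSquare (4 * α ^ 4 + 1) ∧ (∃ e : F, e ≠ 0 ∧ e ^ 2 = -(α * (2 * α ^ 2 + 1) * (2 * α ^ 2 + 2 * α + 1))) ∧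
    ¬ IsSquare (-(1 + α)) ∧ ∃ z : F, z ≠ 0 ∧ z ^ 2 = 1 - α

/-- the four polynomials -/
noncomputable def PP (F : Type) [Field F] : Fin 4 → F[X] :=
  ![4 * X ^ 4 + 1, -(X * (2 * X ^ 2 + 1) * (2 * X ^ 2 + 2 * X + 1)), -(1 + X), 1 - X]

end Pool.Agent.Lib.NG5
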