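import Pool.Agent.Lib.NG5.Defs

/-!
# NG5 / Dir: the elements `ω`, `u` and the direction

PROOF IN WORDS. Write `α` for its image in `K`. `e0` from `Good`: `e0^2 = -(α d s)`, `d = 2α^2+1`, `s = 2α^2+2α+1`, so `α, d, s ≠ 0`; `f = d/(4 α^2 e0)`: `16 α^5 s f^2 = α s d^2/e0^2 = -d`. `D = 4α^4+1`: `φ(φ D) = D`, so `D = ω^2` (`Cyc.sq`), `φ ω = ±ω`, and `φ ω = ω` would give `ω` in `F` (`fix`) and `D` a square of `F`
(`algebraMap` injective): `φ ω = -ω`, `ω ≠ 0`. `ρ = 2 f^2 s (ω^2 - e ω)/d`, `e = 2α^2-1`, is fixed by `φ^2`, so `ρ = u^2`; `ρ = 2f^2 s ω (ω - e)/d ≠ 0` because `ω = e` would be fixed by `φ`. With `c = (e+ω)/(2α)`: `φ(u)^2 = φ ρ = 2 f^2 s ω(ω+e)/d = c^2 ρ = (c u)^2` (`ω^2 - e^2 = 4α^2`). So `φ u = c u`, or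
`φ u = -(c u)`; then `φ (c u) = φ(c) φ(u) = -(e-ω)(e+ω)/(4α^2) u = u`, so `φ.symm u = c u`, and `φ.symm ω = -ω`.
-/

set_option autoImplicit false

namespace Pool.Agent.Lib.NG5

theorem dir {F K : Type} [Field F] [Field K] [Algebra F K] (φ : K ≃ₐ[F] K) (h1 : Cyc F K φ) (h2 : Cyc F K φ.symm) (α : F)
    (hg : Good F α) :
    ∃ σ : K ≃ₐ[F] K, Cyc F K σ ∧ ∃ (f : F) (ω u : K),
      16 * α ^ 5 * (2 * α ^ 2 + 2 * α + 1) * f ^ 2 = -(2 * α ^ 2 + 1) ∧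
      ω ^ 2 = algebraMap F K (4 * α ^ 4 + 1) ∧ σ ω = -ω ∧ u ≠ 0 ∧
      algebraMap F K (2 * α ^ 2 + 1) * u ^ 2 =
        algebraMap F K (2 * f ^ 2 * (2 * α ^ 2 + 2 * α + 1)) * (ω ^ 2 - algebraMap F K (2 * α ^ 2 - 1) * ω) ∧
      σ u = (algebraMap F K (2 * α ^ 2 - 1) + ω) / algebraMap F K (2 * α) * u := by
  obtain ⟨h2ne, hD, ⟨e0, he0, hee⟩, -, -⟩ := hg
  have hprod : -(α * (2 * α ^ 2 + 1) * (2 * α ^ 2 + 2 * α + 1)) ≠ 0 := by
    rw [← hee]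
    exact pow_ne_zero 2 he0
  have hα : α ≠ 0 := by
    rintro rfl
    apply hprod
    ring
  have hd : 2 * α ^ 2 + 1 ≠ 0 := by
    intro h
    apply hprod
    rw [h]
    ring
  have hs : 2 * α ^ 2 + 2 * α + 1 ≠ 0 := by
    intro h
    apply hprod
    rw [h]
    ring
  have h4ne : (4 : F) ≠ 0 := by
    have : (4 : F) = 2 * 2 := by norm_num
    rw [this]
    exact mul_ne_zero h2ne h2ne
  obtain ⟨f, hf0, hf⟩ : ∃ f : F, f ≠ 0 ∧ 16 * α ^ 5 * (2 * α ^ 2 + 2 * α + 1) * f ^ 2 = -(2 * α ^ 2 + 1) := by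
    refine ⟨(2 * α ^ 2 + 1) / (4 * α ^ 2 * e0), ?_, ?_⟩
    · exact div_ne_zero hd (mul_ne_zero (mul_ne_zero h4ne (pow_ne_zero 2 hα)) he0)
    · have h1 : ((2 * α ^ 2 + 1) / (4 * α ^ 2 * e0)) ^ 2 =
          (2 * α ^ 2 + 1) ^ 2 / (16 * α ^ 4 * -(α * (2 * α ^ 2 + 1) * (2 * α ^ 2 + 2 * α + 1))) := by
        rw [div_pow, ← hee]
        congr 1
        ring
      rw [h1]
      have h16 : (16 : F) ≠ 0 := by
        have : (16 : F) = 4 * 4 := by norm_num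
        rw [this]
        exact mul_ne_zero h4ne h4ne
      have h3 : 16 * α ^ 4 * -(α * (2 * α ^ 2 + 1) * (2 * α ^ 2 + 2 * α + 1)) ≠ 0 :=
        mul_ne_zero (mul_ne_zero h16 (pow_ne_zero 4 hα)) hprod
      rw [← mul_div_assoc, div_eq_iff h3]
      ring
  -- images in `K`
  have hinj : Function.Injective (algebraMap F K) := (algebraMap F K).injective
  obtain ⟨a, ha⟩ : ∃ a : K, a = algebraMap F K α := ⟨_, rfl⟩
  obtain ⟨A, hA⟩ : ∃ A : K, A = algebraMap F K (2 * f ^ 2 * (2 * α ^ 2 + 2 * α + 1)) := ⟨_, rfl⟩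
  have hφa : φ a = a := by rw [ha]; exact φ.commutes α
  have hφA : φ A = A := by rw [hA]; exact φ.commutes _
  have hA0 : A ≠ 0 := by
    rw [hA]
    exact (map_ne_zero_iff _ hinj).2 (mul_ne_zero (mul_ne_zero h2ne (pow_ne_zero 2 hf0)) hs)
  have ha0 : a ≠ 0 := by
    rw [ha]
    exact (map_ne_zero_iff _ hinj).2 hα
  have h2K : (2 : K) ≠ 0 := by
    have h := (map_ne_zero_iff _ hinj).2 h2ne
    rwa [map_ofNat] at h
  have hdK : algebraMap F K (2 * α ^ 2 + 1) = 2 * a ^ 2 + 1 := by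
    rw [ha]
    simp only [map_add, map_mul, map_sub, map_pow, map_one, map_ofNat]
  have heK : algebraMap F K (2 * α ^ 2 - 1) = 2 * a ^ 2 - 1 := by
    rw [ha]
    simp only [map_add, map_mul, map_sub, map_pow, map_one, map_ofNat]
  have h2aK : algebraMap F K (2 * α) = 2 * a := by
    rw [ha]
    simp only [map_add, map_mul, map_sub, map_pow, map_one, map_ofNat]
  have hDK : algebraMap F K (4 * α ^ 4 + 1) = 4 * a ^ 4 + 1 := by
    rw [ha]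
    simp only [map_add, map_mul, map_sub, map_pow, map_one, map_ofNat]
  have hdK0 : 2 * a ^ 2 + 1 ≠ 0 := by
    rw [← hdK]
    exact (map_ne_zero_iff _ hinj).2 hd
  have hφ2 : φ 2 = 2 := map_ofNat φ 2
  -- ω
  obtain ⟨ω, hω⟩ : IsSquare (4 * a ^ 4 + 1) := by
    rw [← hDK]
    apply h1.sq
    rw [φ.commutes, φ.commutes]
  have hω2 : ω ^ 2 = 4 * a ^ 4 + 1 := by
    rw [hω]
    ring
  have hnfix : φ ω ≠ ω := by
    intro h
    obtain ⟨c, hc⟩ := h1.fix ω h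
    apply hD
    refine ⟨c, hinj ?_⟩
    rw [hDK, map_mul, hc]
    exact hω
  have hφω : φ ω = -ω := by
    have h3 : (φ ω - ω) * (φ ω + ω) = 0 := by
      have h4 : (φ ω) ^ 2 = ω ^ 2 := by
        rw [← map_pow, hω2]
        rw [← hDK, φ.commutes]
      linear_combination h4
    rcases mul_eq_zero.1 h3 with h5 | h5
    · exact absurd (sub_eq_zero.1 h5) hnfix
    · exact eq_neg_of_add_eq_zero_left h5
  have hω0 : ω ≠ 0 := by
    intro h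
    apply hnfix
    rw [h, map_zero]
  have hφe : φ (2 * a ^ 2 - 1) = 2 * a ^ 2 - 1 := by
    rw [← heK, φ.commutes]
  have hφd : φ (2 * a ^ 2 + 1) = 2 * a ^ 2 + 1 := by
    rw [← hdK, φ.commutes]
  have hωe : ω - (2 * a ^ 2 - 1) ≠ 0 := by
    intro h
    apply hnfix
    rw [sub_eq_zero.1 h, hφe]
  -- ρ
  have hφρ : φ (A * (ω ^ 2 - (2 * a ^ 2 - 1) * ω) / (2 * a ^ 2 + 1)) =
      A * (ω ^ 2 + (2 * a ^ 2 - 1) * ω) / (2 * a ^ 2 + 1) := by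
    rw [map_div₀, map_mul, map_sub, map_mul, map_pow, hφA, hφd, hφe, hφω]
    congr 1
    ring
  have hφρ2 : φ (A * (ω ^ 2 + (2 * a ^ 2 - 1) * ω) / (2 * a ^ 2 + 1)) =
      A * (ω ^ 2 - (2 * a ^ 2 - 1) * ω) / (2 * a ^ 2 + 1) := by
    rw [map_div₀, map_mul, map_add, map_mul, map_pow, hφA, hφd, hφe, hφω]
    congr 1
    ring
  obtain ⟨u, hu⟩ : IsSquare (A * (ω ^ 2 - (2 * a ^ 2 - 1) * ω) / (2 * a ^ 2 + 1)) := by
    apply h1.sq
    rw [hφρ, hφρ2]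
  have hρ0 : A * (ω ^ 2 - (2 * a ^ 2 - 1) * ω) / (2 * a ^ 2 + 1) ≠ 0 := by
    apply div_ne_zero _ hdK0
    apply mul_ne_zero hA0
    have h3 : ω ^ 2 - (2 * a ^ 2 - 1) * ω = ω * (ω - (2 * a ^ 2 - 1)) := by ring
    rw [h3]
    exact mul_ne_zero hω0 hωe
  have hu0 : u ≠ 0 := by
    rintro rfl
    apply hρ0
    rw [hu, mul_zero]
  have hu2 : (2 * a ^ 2 + 1) * u ^ 2 = A * (ω ^ 2 - (2 * a ^ 2 - 1) * ω) := by
    have h3 : u ^ 2 = A * (ω ^ 2 - (2 * a ^ 2 - 1) * ω) / (2 * a ^ 2 + 1) := by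
      rw [hu]
      ring
    rw [h3, mul_div_cancel₀ _ hdK0]
  have hφu2 : (2 * a ^ 2 + 1) * (φ u) ^ 2 = A * (ω ^ 2 + (2 * a ^ 2 - 1) * ω) := by
    have h3 := congrArg φ hu2
    rw [map_mul, map_mul, map_sub, map_mul, map_pow, map_pow, hφA, hφd, hφe, hφω] at h3
    rw [h3]
    ring
  have h2a0 : 2 * a ≠ 0 := mul_ne_zero h2K ha0
  obtain ⟨c, hc⟩ : ∃ c : K, c = (2 * a ^ 2 - 1 + ω) / (2 * a) := ⟨_, rfl⟩
  have hc2 : 2 * a * c = 2 * a ^ 2 - 1 + ω := by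
    rw [hc, mul_div_cancel₀ _ h2a0]
  have hφc : 2 * a * φ c = 2 * a ^ 2 - 1 - ω := by
    have h3 := congrArg φ hc2
    rw [map_mul, map_mul, hφ2, hφa, map_add, hφe, hφω] at h3
    rw [h3]
    ring
  have hkey : (φ u - c * u) * (φ u + c * u) = 0 := by
    have h3 : (2 * a) ^ 2 * (2 * a ^ 2 + 1) * ((φ u - c * u) * (φ u + c * u)) = 0 := by
      have h4 : (2 * a) ^ 2 * (2 * a ^ 2 + 1) * ((φ u - c * u) * (φ u + c * u)) =
          (2 * a) ^ 2 * ((2 * a ^ 2 + 1) * (φ u) ^ 2) - (2 * a * c) ^ 2 * ((2 * a ^ 2 + 1) * u ^ 2) := by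
        ring
      rw [h4, hφu2, hu2, hc2]
      linear_combination (-(A * ω * (ω + (2 * a ^ 2 - 1)))) * hω2
    rcases mul_eq_zero.1 h3 with h5 | h5
    · exact absurd h5 (mul_ne_zero (pow_ne_zero 2 h2a0) hdK0)
    · exact h5
  rcases mul_eq_zero.1 hkey with h3 | h3
  · refine ⟨φ, h1, f, ω, u, hf, ?_, hφω, hu0, ?_, ?_⟩
    · rw [hDK, hω2]
    · rw [hdK, heK, ← hA, hu2]
    · rw [heK, h2aK, ← hc]
      exact sub_eq_zero.1 h3
  · have h4 : φ u = -(c * u) := eq_neg_of_add_eq_zero_left h3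
    refine ⟨φ.symm, h2, f, ω, u, hf, ?_, ?_, hu0, ?_, ?_⟩
    · rw [hDK, hω2]
    · rw [AlgEquiv.symm_apply_eq, map_neg, hφω, neg_neg]
    · rw [hdK, heK, ← hA, hu2]
    · rw [heK, h2aK, ← hc, AlgEquiv.symm_apply_eq, map_mul, h4]
      have h5 : (2 * a) ^ 2 * (u - φ c * -(c * u)) = 0 := by
        have h6 : (2 * a) ^ 2 * (u - φ c * -(c * u)) = (2 * a) ^ 2 * u + (2 * a * φ c) * (2 * a * c) * u := by
          ring
        rw [h6, hφc, hc2]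
        linear_combination (-u) * hω2
      rcases mul_eq_zero.1 h5 with h6 | h6
      · exact absurd h6 (pow_ne_zero 2 h2a0)
      · exact sub_eq_zero.1 h6

end Pool.Agent.Lib.NG5
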