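import Mathlib

/-!
# NG5 / Ev1: the parameter for even `q`

PROOF IN WORDS. `P = {h^2 + h}` is the image of an additive map with kernel `{0, 1}`, so an additive subgroup of index 2. `χ x = 1` if `x ∈ P`, `-1` otherwise (in `ℤ`): `χ (x + y) = χ x χ y` (`AddSubgroup.add_mem_iff_of_index_two` or by hand), `χ (x^2) = χ x` (`x^2 + x ∈ P`), `∑ χ = 0` (index 2). Let `S c = ∑_g χ (g^3 + c g)`,
`c = 0, 1`. `S^2 = ∑_u ∑_g χ (g^3 + c g) χ ((g+u)^3 + c (g+u)) = ∑_u χ (u^3 + c u) ∑_g χ (g^2 u + g u^2)`, and `χ (g^2 u + g u^2) = χ (g^2 u) χ (g^2 u^4) = χ (g^2 (u + u^4))`; the sum over `g` (squaring is a bijection) is `q` if `u^4 + u = 0`, otherwise `0` (multiplication by `u + u^4 ≠ 0` is a bijection, `∑ χ = 0`).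
At most 4 such `u`: `S^2 ≤ 4 q`, `|S| ≤ 2 √q`. If no `g` has `χ g = -1` and `χ (g^2 + g^3) = 1` then `0 = ∑_g (1 - χ g)(1 + χ (g^2+g^3)) = q - 0 + S 1 - S 0` (`χ (g^2 + g^3) = χ (g + g^3)`, `χ (g + g^2 + g^3) = χ (g^3)`), so `q ≤ |S 0| + |S 1|`, `q^2 ≤ 16 q`, `q ≤ 16`.
-/

set_option autoImplicit false

namespace Pool.Agent.Lib.NG5

section Aux

variable {F : Type} [Field F] [CharP F 2]

/-- The additive map `h ↦ h^2 + h`. -/
private noncomputable def asHom (F : Type) [Field F] [CharP F 2] : F →+ F where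
  toFun h := h ^ 2 + h
  map_zero' := by simp
  map_add' x y := by
    have h2 : (2 : F) = 0 := CharTwo.two_eq_zero
    linear_combination (x * y) * h2

open Classical in
/-- The character. -/
private noncomputable def chi (x : F) : ℤ :=
  if x ∈ (asHom F).range then 1 else -1

private lemma mem_range_iff (x : F) : x ∈ (asHom F).range ↔ ∃ h : F, h ^ 2 + h = x := by
  rfl

private lemma asHom_ker_card : Nat.card (asHom F).ker = 2 := by
  have h1 : ((asHom F).ker : Set F) = {0, 1} := by
    ext x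
    simp only [SetLike.mem_coe, AddMonoidHom.mem_ker, Set.mem_insert_iff, Set.mem_singleton_iff]
    constructor
    · intro h
      have h' : x * (x + 1) = 0 := by
        have : x ^ 2 + x = 0 := h
        linear_combination this
      rcases mul_eq_zero.mp h' with h0 | h0
      · exact Or.inl h0
      · right
        have := CharTwo.add_eq_zero.mp h0
        exact this
    · rintro (rfl | rfl)
      · exact map_zero _
      · change (1 : F) ^ 2 + 1 = 0
        have h2 : (2 : F) = 0 := CharTwo.two_eq_zero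
        linear_combination h2
  have h3 : Nat.card (asHom F).ker = Set.ncard ({0, 1} : Set F) := by
    rw [← h1]
    rfl
  rw [h3, Set.ncard_pair zero_ne_one]

private lemma asHom_index [Finite F] : (asHom F).range.index = 2 := by
  rw [AddSubgroup.index_range, asHom_ker_card]

private lemma chi_add [Finite F] (x y : F) : chi (x + y) = chi x * chi y := by
  have h := AddSubgroup.add_mem_iff_of_index_two (asHom_index (F := F)) (a := x) (b := y)
  unfold chi
  by_cases hx : x ∈ (asHom F).range <;> by_cases hy : y ∈ (asHom F).range <;>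
    simp [h, hx, hy]

private lemma chi_of_mem (x : F) (hx : ∃ h : F, h ^ 2 + h = x) : chi x = 1 := by
  unfold chi
  rw [if_pos ((mem_range_iff x).mpr hx)]

private lemma chi_of_not_mem (x : F) (hx : ¬ ∃ h : F, h ^ 2 + h = x) : chi x = -1 := by
  unfold chi
  rw [if_neg (fun h => hx ((mem_range_iff x).mp h))]

private lemma chi_mul_self (x : F) : chi x * chi x = 1 := by
  unfold chi
  split_ifs <;> norm_num

private lemma chi_sq [Finite F] (x : F) : chi (x ^ 2) = chi x := by
  have h1 : chi (x ^ 2 + x) = 1 := chi_of_mem _ ⟨x, rfl⟩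
  rw [chi_add] at h1
  have h2 := chi_mul_self x
  calc chi (x ^ 2) = chi (x ^ 2) * (chi x * chi x) := by rw [h2, mul_one]
    _ = (chi (x ^ 2) * chi x) * chi x := by ring
    _ = chi x := by rw [h1, one_mul]

private lemma abs_chi (x : F) : |chi x| = 1 := by
  unfold chi
  split_ifs <;> norm_num

private lemma sum_chi [Fintype F] : ∑ x : F, chi x = 0 := by
  have hne : (asHom F).range ≠ ⊤ := by
    intro h
    have := asHom_index (F := F)
    rw [h, AddSubgroup.index_top] at this
    norm_num at this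
  obtain ⟨z, hz⟩ : ∃ z : F, z ∉ (asHom F).range := by
    by_contra hcon
    push Not at hcon
    exact hne (eq_top_iff.mpr fun x _ => hcon x)
  have hz1 : chi z = -1 := by
    unfold chi
    rw [if_neg hz]
  have h1 : ∑ x : F, chi x = ∑ x : F, chi (x + z) :=
    (Fintype.sum_equiv (Equiv.addRight z) _ _ (fun x => rfl)).symm
  have h2 : ∑ x : F, chi (x + z) = - ∑ x : F, chi x := by
    rw [← Finset.sum_neg_distrib]
    refine Finset.sum_congr rfl fun x _ => ?_
    rw [chi_add, hz1]
    ring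
  rw [h2] at h1
  linarith

private lemma sum_chi_sq_mul [Fintype F] (w : F) (hw : w ≠ 0) :
    ∑ g : F, chi (g ^ 2 * w) = 0 := by
  have hinj : Function.Injective (fun g : F => g ^ 2 * w) := by
    intro a b hab
    have h1 : a ^ 2 = b ^ 2 := mul_right_cancel₀ hw hab
    have h2 : (a + b) ^ 2 = 0 := by
      have h2 : (2 : F) = 0 := CharTwo.two_eq_zero
      linear_combination h1 + (a * b + b ^ 2) * h2
    have h3 : a + b = 0 := pow_eq_zero_iff (two_ne_zero) |>.mp h2
    exact CharTwo.add_eq_zero.mp h3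
  have hbij : Function.Bijective (fun g : F => g ^ 2 * w) := Finite.injective_iff_bijective.mp hinj
  rw [← sum_chi (F := F)]
  exact Fintype.sum_bijective _ hbij _ _ (fun x => rfl)

/-- The cubic sum. -/
private noncomputable def cs (F : Type) [Field F] [CharP F 2] [Fintype F] (c : F) : ℤ :=
  ∑ g : F, chi (g ^ 3 + c * g)

private lemma inner [Fintype F] (u : F) :
    ∑ g : F, chi (g ^ 2 * u + g * u ^ 2) = ∑ g : F, chi (g ^ 2 * (u + u ^ 4)) := by
  refine Finset.sum_congr rfl fun g _ => ?_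
  rw [chi_add, ← chi_sq (g * u ^ 2), ← chi_add]
  congr 1
  ring

private lemma cs_sq [Fintype F] (c : F) :
    cs F c * cs F c =
      ∑ u : F, chi (u ^ 3 + c * u) * ∑ g : F, chi (g ^ 2 * (u + u ^ 4)) := by
  unfold cs
  rw [Finset.sum_mul_sum]
  have h1 : ∀ g : F, ∑ g' : F, chi (g ^ 3 + c * g) * chi (g' ^ 3 + c * g') =
      ∑ u : F, chi (u ^ 3 + c * u) * chi (g ^ 2 * u + g * u ^ 2) := by
    intro g
    have h2 : ∑ g' : F, chi (g ^ 3 + c * g) * chi (g' ^ 3 + c * g') =
        ∑ u : F, chi (g ^ 3 + c * g) * chi ((u + g) ^ 3 + c * (u + g)) :=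
      (Fintype.sum_equiv (Equiv.addRight g) _ _ (fun x => rfl)).symm
    rw [h2]
    refine Finset.sum_congr rfl fun u _ => ?_
    rw [← chi_add, ← chi_add]
    congr 1
    have h2 : (2 : F) = 0 := CharTwo.two_eq_zero
    linear_combination (g ^ 3 + c * g + g ^ 2 * u + g * u ^ 2) * h2
  rw [Finset.sum_congr rfl (fun g _ => h1 g), Finset.sum_comm]
  refine Finset.sum_congr rfl fun u _ => ?_
  rw [← Finset.mul_sum, inner]

open Classical in
private lemma card_roots [Fintype F] :
    (Finset.univ.filter (fun u : F => u + u ^ 4 = 0)).card ≤ 4 := by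
  have hp : ((Polynomial.X : Polynomial F) + Polynomial.X ^ 4).natDegree = 4 := by
    compute_degree!
  have hne : ((Polynomial.X : Polynomial F) + Polynomial.X ^ 4) ≠ 0 := by
    intro h
    rw [h, Polynomial.natDegree_zero] at hp
    norm_num at hp
  have h1 : (Finset.univ.filter (fun u : F => u + u ^ 4 = 0)) ⊆
      ((Polynomial.X : Polynomial F) + Polynomial.X ^ 4).roots.toFinset := by
    intro u hu
    rw [Multiset.mem_toFinset, Polynomial.mem_roots hne, Polynomial.IsRoot.def]
    simpa using hu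
  calc (Finset.univ.filter (fun u : F => u + u ^ 4 = 0)).card
      ≤ ((Polynomial.X : Polynomial F) + Polynomial.X ^ 4).roots.toFinset.card :=
        Finset.card_le_card h1
    _ ≤ Multiset.card ((Polynomial.X : Polynomial F) + Polynomial.X ^ 4).roots :=
        Multiset.toFinset_card_le _
    _ ≤ ((Polynomial.X : Polynomial F) + Polynomial.X ^ 4).natDegree :=
        Polynomial.card_roots' _
    _ = 4 := hp

private lemma cs_sq_le [Fintype F] (c : F) :
    cs F c * cs F c ≤ 4 * (Fintype.card F : ℤ) := by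
  classical
  rw [cs_sq]
  have h1 : ∀ u : F, chi (u ^ 3 + c * u) * ∑ g : F, chi (g ^ 2 * (u + u ^ 4)) ≤
      if u + u ^ 4 = 0 then (Fintype.card F : ℤ) else 0 := by
    intro u
    split_ifs with hu
    · rw [hu]
      have h2 : ∑ g : F, chi (g ^ 2 * (0 : F)) = (Fintype.card F : ℤ) := by
        have h3 : ∀ g : F, chi (g ^ 2 * (0 : F)) = 1 := fun g =>
          chi_of_mem _ ⟨0, by simp⟩
        rw [Finset.sum_congr rfl (fun g _ => h3 g)]
        simp
      rw [h2]
      have h4 : chi (u ^ 3 + c * u) ≤ 1 := by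
        have := abs_chi (u ^ 3 + c * u)
        calc chi (u ^ 3 + c * u) ≤ |chi (u ^ 3 + c * u)| := le_abs_self _
          _ = 1 := this
      nlinarith [Nat.cast_nonneg (α := ℤ) (Fintype.card F)]
    · rw [sum_chi_sq_mul _ hu, mul_zero]
  calc ∑ u : F, chi (u ^ 3 + c * u) * ∑ g : F, chi (g ^ 2 * (u + u ^ 4))
      ≤ ∑ u : F, (if u + u ^ 4 = 0 then (Fintype.card F : ℤ) else 0) :=
        Finset.sum_le_sum fun u _ => h1 u
    _ = ((Finset.univ.filter (fun u : F => u + u ^ 4 = 0)).card : ℤ) * (Fintype.card F : ℤ) := by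
        rw [← Finset.sum_filter, Finset.sum_const, nsmul_eq_mul]
    _ ≤ 4 * (Fintype.card F : ℤ) := by
        have := card_roots (F := F)
        have h5 : ((Finset.univ.filter (fun u : F => u + u ^ 4 = 0)).card : ℤ) ≤ 4 := by
          exact_mod_cast this
        nlinarith [Nat.cast_nonneg (α := ℤ) (Fintype.card F)]

end Aux

theorem exists_g {F : Type} [Field F] [Fintype F] [CharP F 2] (hq : 16 < Fintype.card F) :
    ∃ g : F, (¬ ∃ h : F, h ^ 2 + h = g) ∧ ∃ h : F, h ^ 2 + h = g ^ 2 + g ^ 3 := by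
  by_contra hcon
  push Not at hcon
  have hz : ∀ g : F, (1 - chi g) * (1 + chi (g ^ 2 + g ^ 3)) = 0 := by
    intro g
    by_cases hg : ∃ h : F, h ^ 2 + h = g
    · rw [chi_of_mem g hg]
      ring
    · have h1 : ¬ ∃ h : F, h ^ 2 + h = g ^ 2 + g ^ 3 := by
        rintro ⟨h, hh⟩
        have hg' : ∀ h : F, h ^ 2 + h ≠ g := fun h hh' => hg ⟨h, hh'⟩
        exact hcon g hg' h hh
      rw [chi_of_not_mem _ h1]
      ring
  have he : ∀ g : F, (1 - chi g) * (1 + chi (g ^ 2 + g ^ 3)) =
      1 - chi g + chi (g ^ 3 + 1 * g) - chi (g ^ 3 + 0 * g) := by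
    intro g
    have h1 : chi (g ^ 3 + 1 * g) = chi (g ^ 3) * chi g := by
      rw [one_mul, chi_add]
    have h2 : chi (g ^ 3 + 0 * g) = chi (g ^ 3) := by
      rw [zero_mul, add_zero]
    rw [h1, h2, chi_add, chi_sq]
    have h3 := chi_mul_self g
    linear_combination (- chi (g ^ 3)) * h3
  have hs : (Fintype.card F : ℤ) + cs F 1 - cs F 0 = 0 := by
    have h0 : ∑ g : F, (1 - chi g) * (1 + chi (g ^ 2 + g ^ 3)) = 0 :=
      Finset.sum_eq_zero fun g _ => hz g
    rw [Finset.sum_congr rfl (fun g _ => he g), Finset.sum_sub_distrib, Finset.sum_add_distrib,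
      Finset.sum_sub_distrib, sum_chi] at h0
    have h1 : ∑ _g : F, (1 : ℤ) = (Fintype.card F : ℤ) := by simp
    rw [h1] at h0
    unfold cs
    linarith
  have hq' : (16 : ℤ) < (Fintype.card F : ℤ) := by exact_mod_cast hq
  have b0 := cs_sq_le (F := F) 0
  have b1 := cs_sq_le (F := F) 1
  have hq2 : (Fintype.card F : ℤ) = cs F 0 - cs F 1 := by linarith
  have h2 : (Fintype.card F : ℤ) * (Fintype.card F : ℤ) ≤ 16 * (Fintype.card F : ℤ) := by
    have h3 : (cs F 0 - cs F 1) * (cs F 0 - cs F 1) ≤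
        2 * (cs F 0 * cs F 0 + cs F 1 * cs F 1) := by
      nlinarith [sq_nonneg (cs F 0 + cs F 1)]
    calc (Fintype.card F : ℤ) * (Fintype.card F : ℤ)
        = (cs F 0 - cs F 1) * (cs F 0 - cs F 1) := by rw [← hq2]
      _ ≤ 2 * (cs F 0 * cs F 0 + cs F 1 * cs F 1) := h3
      _ ≤ 16 * (Fintype.card F : ℤ) := by linarith
  nlinarith

end Pool.Agent.Lib.NG5
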