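import Pool.Agent.Lib.NG5.Defs

/-!
# NG5 / Ev2: Artin-Schreier equations in `K` (even `q`)

PROOF IN WORDS. `P y = y^2 + y` is additive on `K` with kernel `{0, 1}`, so its image has `card K / 2` elements; the same on `F`. `T x = x + σ x + σ^2 x + σ^3 x` is fixed by `σ` (`four`), so `T : K → F` (`fix`), additive, `T (P y) = P (T y)` (`σ` is a ring automorphism, characteristic 2), so `P(K) ⊆ T⁻¹(P(F))`. `T` is surjective onto `F`: it is
`F`-linear and not `0` (`1, σ, σ^2, σ^3` are different because `fix` makes the fixed field of the group they generate `F` and `finrank = 4`; `linearIndependent_monoidHom` (Dedekind); or `T = algebraMap ∘ Algebra.trace` by `Algebra.trace_eq_sum_automorphisms` and `Algebra.trace_surjective`). So `T⁻¹(P(F))` has `card K / 2` elements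
and equals `P(K)`. `T x = 0 = P 0`. (Another way: `Algebra.trace (ZMod 2) K x = 0` by `Algebra.trace_trace`, and the kernel of the trace is the image of `P` by counting.)
-/

set_option autoImplicit false

namespace Pool.Agent.Lib.NG5

private lemma ev2_as {K : Type} [Field K] [Finite K] [CharP K 2] (σ : K →+* K) (hσ : ∀ u, (∃ y, y ^ 2 + y = σ u) → ∃ y, y ^ 2 + y = u)
    (u : K) : ∃ y : K, y ^ 2 + y = σ u + u := by
  let P : K →+ K := AddMonoidHom.mk' (fun y => y ^ 2 + y) (fun a b => by
    have h2 : (2 : K) = 0 := CharTwo.two_eq_zero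
    linear_combination (a * b) * h2)
  have hP : ∀ y, P y = y ^ 2 + y := fun y => rfl
  have hker : (P.ker : Set K) = {0, 1} := by
    ext y
    rw [SetLike.mem_coe, AddMonoidHom.mem_ker, hP, Set.mem_insert_iff, Set.mem_singleton_iff]
    constructor
    · intro h
      have h1 : y * (y + 1) = 0 := by
        rw [← h]
        ring
      rcases mul_eq_zero.1 h1 with h2 | h2
      · exact Or.inl h2
      · right
        exact (CharTwo.add_eq_zero.1 h2)
    · rintro (h | h)
      · rw [h]
        ring
      · rw [h]
        have h2 : (2 : K) = 0 := CharTwo.two_eq_zero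
        linear_combination h2
  have hk2 : Nat.card P.ker = 2 := by
    have h1 : Nat.card P.ker = Set.ncard (P.ker : Set K) := rfl
    rw [h1, hker, Set.ncard_pair zero_ne_one]
  have hidx : P.range.index = 2 := by
    have h1 := P.ker.card_mul_index
    rw [AddSubgroup.index_ker, hk2] at h1
    have h2 := P.range.card_mul_index
    have h3 : 0 < Nat.card P.range := Nat.card_pos
    rw [← h1, mul_comm] at h2
    exact Nat.eq_of_mul_eq_mul_right h3 h2
  have hmem : ∀ x, x ∈ P.range ↔ ∃ y, y ^ 2 + y = x := fun x => by
    rw [AddMonoidHom.mem_range]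
    rfl
  rw [← hmem, AddSubgroup.add_mem_iff_of_index_two hidx]
  constructor
  · intro h
    rw [hmem] at h ⊢
    exact hσ u h
  · intro h
    rw [hmem] at h ⊢
    obtain ⟨y, hy⟩ := h
    exact ⟨σ y, by rw [← map_pow, ← map_add, hy]⟩

private lemma ev2_rank {F K : Type} [Field F] [Field K] [Algebra F K] [FiniteDimensional F K] (N : K →ₗ[F] K)
    (hN : Module.finrank F (LinearMap.ker N) ≤ 1) (W : Submodule F K) :
    Module.finrank F W ≤ Module.finrank F (W.map N) + 1 := by
  have h1 := LinearMap.finrank_range_add_finrank_ker (N.domRestrict W)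
  rw [LinearMap.range_domRestrict] at h1
  have h2 : Module.finrank F (LinearMap.ker (N.domRestrict W)) ≤ Module.finrank F (LinearMap.ker N) := by
    refine LinearMap.finrank_le_finrank_of_injective (f := (W.subtype.comp (LinearMap.ker (N.domRestrict W)).subtype).codRestrict (LinearMap.ker N) ?_) ?_
    · intro c
      have := c.2
      rw [LinearMap.mem_ker] at this ⊢
      exact this
    · intro x y hxy
      have := congrArg Subtype.val hxy
      exact Subtype.ext (Subtype.ext this)
  omega

theorem as_solve {F K : Type} [Field F] [Field K] [Finite K] [Algebra F K] (hK : Module.finrank F K = 4) [CharP K 2]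
    (σ : K ≃ₐ[F] K) (h1 : Cyc F K σ) (x : K) (hx : x + σ x + σ (σ x) + σ (σ (σ x)) = 0) : ∃ y : K, y ^ 2 + y = x := by
  have hfd : FiniteDimensional F K := Module.finite_of_finrank_pos (by omega)
  have h2 : (2 : K) = 0 := CharTwo.two_eq_zero
  let N : K →ₗ[F] K := σ.toLinearMap + LinearMap.id
  have hN : ∀ u, N u = σ u + u := fun u => rfl
  have hker : Module.finrank F (LinearMap.ker N) ≤ 1 := by
    have h11 : (1 : K) ∈ LinearMap.ker N := by
      rw [LinearMap.mem_ker, hN, map_one]
      linear_combination h2
    refine finrank_le_one ⟨1, h11⟩ ?_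
    intro w
    have hw := w.2
    rw [LinearMap.mem_ker, hN] at hw
    have hw2 : σ w.1 = w.1 := CharTwo.add_eq_zero.1 hw
    obtain ⟨c, hc⟩ := h1.fix w.1 hw2
    refine ⟨c, Subtype.ext ?_⟩
    simp only [SetLike.mk_smul_mk]
    rw [Algebra.smul_def, mul_one, hc]
  have hr1 : 3 ≤ Module.finrank F (LinearMap.range N) := by
    have := ev2_rank N hker ⊤
    rw [finrank_top, hK, Submodule.map_top] at this
    omega
  have hr2 := ev2_rank N hker (LinearMap.range N)
  have hr3 := ev2_rank N hker ((LinearMap.range N).map N)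
  have hx3 : N (N (N x)) = 0 := by
    simp only [hN, map_add]
    linear_combination hx + (σ (σ x) + σ x) * h2
  have hN4 : ∀ u, N (N (N (N u))) = 0 := by
    intro u
    simp only [hN, map_add, h1.four]
    linear_combination (u + 2 * σ (σ (σ u)) + 3 * σ (σ u) + 2 * σ u) * h2
  have hmem : x ∈ LinearMap.range N := by
    by_contra hc
    have hlt : LinearMap.range N < LinearMap.range N ⊔ Submodule.span F {x} := by
      refine lt_of_le_of_ne le_sup_left fun h => hc ?_
      rw [h]
      exact (le_sup_right : Submodule.span F {x} ≤ _) (Submodule.mem_span_singleton_self x)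
    have h4 := Submodule.finrank_lt_finrank_of_lt hlt
    have h5 : LinearMap.range N ⊔ Submodule.span F {x} = ⊤ := by
      apply Submodule.eq_top_of_finrank_eq
      have := Submodule.finrank_le (LinearMap.range N ⊔ Submodule.span F {x})
      omega
    have h6 : ∀ k, N (N (N k)) = 0 := by
      intro k
      have hk : k ∈ LinearMap.range N ⊔ Submodule.span F {x} := by
        rw [h5]
        trivial
      obtain ⟨y, hy, z, hz, rfl⟩ := Submodule.mem_sup.1 hk
      obtain ⟨u, rfl⟩ := hy
      obtain ⟨c, rfl⟩ := Submodule.mem_span_singleton.1 hz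
      rw [map_add, map_add, map_add, hN4, map_smul, map_smul, map_smul, hx3, smul_zero, add_zero]
    have h7 : ((LinearMap.range N).map N).map N = ⊥ := by
      rw [eq_bot_iff]
      rintro y ⟨z, ⟨w, ⟨k, rfl⟩, rfl⟩, rfl⟩
      rw [Submodule.mem_bot]
      exact h6 k
    rw [h7, finrank_bot] at hr3
    omega
  obtain ⟨u, hu⟩ := hmem
  rw [hN] at hu
  rw [← hu]
  refine ev2_as (σ : K →+* K) ?_ u
  rintro v ⟨y, hy⟩
  refine ⟨σ (σ (σ y)), ?_⟩
  have h8 : σ (σ (σ (y ^ 2 + y))) = v := by
    rw [hy]
    exact h1.four v
  rw [← h8]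
  simp only [map_add, map_pow]

end Pool.Agent.Lib.NG5
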