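import Pool.Agent.Lib.NG5.Ev2

/-!
# NG5 / Ev3: sixteen points for even `q`

PROOF IN WORDS. (Checked by computer for `q = 8, 16`.) Write `g` for its image in `K`, `c = g⁻¹` (`g ≠ 0`, as `0 = 0^2 + 0`). `T g = 4 g = 0`: `z` in `K` with `z^2 + z = g` (`as_solve`). `φ z + z` is a root of `X^2 + X` (`φ g = g`), so `0` or `1`; if `0` then `z ∈ F` (`fix`), against `hg1`: `φ z = z + 1`, also `φ.symm z = z + 1`.
`T (g z) = g (z + z+1 + z + z+1) = 0`: `w^2 + w = g z`. `φ w + w + z =: ε` satisfies `ε^2 + ε = g (z+1) + g z + z^2 + z = 0`: `ε ∈ {0, 1}`. If `ε = 0` take `σ = φ`, if `ε = 1` then `φ (w + z) = w + z + 1 + z + 1 = w`, `σ = φ.symm`. So `σ z = z + 1`, `σ w = w + z`, `σ^2 w = w + 1`, `σ^3 w = w + z + 1`, `T (g w) = 0`: `s^2 + s = g w`.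
`η = σ s + s + w` satisfies `η^2 + η = g (w+z) + g w + g z = 0`: `η ∈ {0, 1}`. `U = s + w z + g z`: `σ U = U + η` (`(w+z)(z+1) = wz + w + z^2 + z`, `z^2 + z = g`) and `U^2 + U = g^2 + g^3` (`w^2 z^2 = (w + g z)(z + g)`), `= h^2 + h` with `h ∈ F` by `hg2`, so `U = h` or `h + 1`, `σ U = U`, `η = 0`: `σ s = s + w`.
`V` = all sums of subsets of `{c, c z, c w, c s}` (e.g. image of `Fin 2 → ..` or of `Bool^4`), 16 elements: `1, z, w, s` are independent over `F_2` (apply `σ - 1`: `s → w → z → 1 → 0`). Relation `σ y = y^2 + (c + 1) y` is additive in `y`; `y = c`: `c = c^2 + c^2 + c`; `c z`: `c z + c = c^2 (z + g) + c^2 z + c z`; `c w`: `c^2 (w^2+w) + c w = c z + c w`; `c s`: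
`c^2 (s^2 + s) + c s = c w + c s`.
-/

set_option autoImplicit false

namespace Pool.Agent.Lib.NG5

private theorem ev3_bit (a : ZMod 2) : a = 0 ∨ a = 1 := by
  revert a
  decide

private theorem ev3_root {K : Type} [Field K] [CharP K 2] (x : K) (h : x ^ 2 + x = 0) : x = 0 ∨ x = 1 := by
  have h2 : (2 : K) = 0 := CharTwo.two_eq_zero
  have h3 : x * (x + 1) = 0 := by linear_combination h
  rcases mul_eq_zero.mp h3 with h4 | h4
  · exact Or.inl h4
  · right
    linear_combination h4 - h2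

/-- from `z`, `w` with the right transformation: the sixteen points -/
private theorem ev3_pts {F K : Type} [Field F] [Field K] [Finite K] [Algebra F K]
    (hK : Module.finrank F K = 4) [CharP K 2] (σ : K ≃ₐ[F] K) (h1 : Cyc F K σ) (g : F) (hg0 : g ≠ 0)
    (hg2 : ∃ h : F, h ^ 2 + h = g ^ 2 + g ^ 3) (z w : K) (hz : z ^ 2 + z = algebraMap F K g)
    (hw : w ^ 2 + w = algebraMap F K g * z) (hsz : σ z = z + 1) (hsw : σ w = w + z) :
    ∃ V : Finset K, V.card = 16 ∧ ∀ y ∈ V, σ y = y ^ 2 + algebraMap F K (g⁻¹ + 1) * y := by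
  classical
  have h2 : (2 : K) = 0 := CharTwo.two_eq_zero
  have hG0 : algebraMap F K g ≠ 0 := by
    intro h
    exact hg0 ((map_eq_zero (algebraMap F K)).mp h)
  have hsG : σ (algebraMap F K g) = algebraMap F K g := σ.commutes g
  obtain ⟨h, hh⟩ := hg2
  have hH : (algebraMap F K h) ^ 2 + algebraMap F K h = (algebraMap F K g) ^ 2 + (algebraMap F K g) ^ 3 := by
    rw [← map_pow, ← map_add, hh, map_add, map_pow, map_pow]
  have hsH : σ (algebraMap F K h) = algebraMap F K h := σ.commutes h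
  have hc : algebraMap F K (g⁻¹ + 1) = (algebraMap F K g)⁻¹ + 1 := by
    rw [map_add, map_inv₀, map_one]
  rw [hc]
  generalize algebraMap F K g = G at *
  generalize algebraMap F K h = H at *
  obtain ⟨s, hs⟩ := as_solve hK σ h1 (G * w) (by
    simp only [map_mul, map_add, hsG, hsw, hsz, map_one]
    linear_combination (G * (2 * w + 3 * z + 2)) * h2)
  have hs' : (σ s) ^ 2 + σ s = G * (w + z) := by
    have := congrArg σ hs
    simpa only [map_mul, map_add, map_pow, hsG, hsw] using this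
  have hη : σ s + s + w = 0 ∨ σ s + s + w = 1 := by
    apply ev3_root
    linear_combination hs' + hs + hw + (σ s * s + σ s * w + s * w + G * w + G * z) * h2
  have hσU : σ (s + w * z + G * z) = s + w * z + G * z + (σ s + s + w) := by
    simp only [map_mul, map_add, hsG, hsw, hsz]
    linear_combination hz + (G - s) * h2
  have hU : (s + w * z + G * z) ^ 2 + (s + w * z + G * z) = G ^ 2 + G ^ 3 := by
    linear_combination hs + (z ^ 2) * hw + (-w + G * z + G ^ 2 - G) * hz +
      (s * w * z + s * G * z + w * G * z ^ 2 + w * z + G * z - G ^ 2) * h2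
  have hUH : (s + w * z + G * z) + H = 0 ∨ (s + w * z + G * z) + H = 1 := by
    apply ev3_root
    linear_combination hU + hH + ((s + w * z + G * z) * H + G ^ 2 + G ^ 3) * h2
  have hη0 : σ s + s + w = 0 := by
    have h3 : σ ((s + w * z + G * z) + H) = (s + w * z + G * z) + H := by
      rcases hUH with h4 | h4
      · rw [h4, map_zero]
      · rw [h4, map_one]
    rw [map_add σ (s + w * z + G * z) H, hσU, hsH] at h3
    linear_combination h3
  have hss : σ s = s + w := by
    linear_combination hη0 - (s + w) * h2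
  clear hη hσU hU hUH hη0 hs'
  -- the map from four bits
  haveI : Fact (Nat.Prime 2) := ⟨Nat.prime_two⟩
  let i : ZMod 2 →+* K := ZMod.castHom (dvd_refl 2) K
  have hi : ∀ a : ZMod 2, σ (i a) = i a := by
    intro a
    have : ((σ : K →+* K).comp i) = i := Subsingleton.elim _ _
    exact congrArg (fun f : ZMod 2 →+* K => f a) this
  have hi0 : ∀ a : ZMod 2, i a = 0 → a = 0 := by
    intro a ha
    exact (map_eq_zero i).mp ha
  let f : (ZMod 2 × ZMod 2) × (ZMod 2 × ZMod 2) → K := fun t =>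
    G⁻¹ * (i t.1.1 + i t.1.2 * z + i t.2.1 * w + i t.2.2 * s)
  have hfinj : Function.Injective f := by
    rintro ⟨⟨a, b⟩, ⟨d, e⟩⟩ ⟨⟨a', b'⟩, ⟨d', e'⟩⟩ hf
    have hf1 : i a + i b * z + i d * w + i e * s = i a' + i b' * z + i d' * w + i e' * s := by
      have := hf
      simp only [f] at this
      exact mul_left_cancel₀ (inv_ne_zero hG0) this
    have e0 : i (a - a') + i (b - b') * z + i (d - d') * w + i (e - e') * s = 0 := by
      simp only [map_sub]
      linear_combination hf1
    have e1 : i (b - b') + i (d - d') * z + i (e - e') * w = 0 := by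
      have h3 := congrArg σ e0
      simp only [map_add, map_mul, hi, hsz, hsw, hss, map_zero] at h3
      linear_combination h3 - e0
    have e2 : i (d - d') + i (e - e') * z = 0 := by
      have h3 := congrArg σ e1
      simp only [map_add, map_mul, hi, hsz, hsw, hss, map_zero] at h3
      linear_combination h3 - e1
    have e3 : i (e - e') = 0 := by
      have h3 := congrArg σ e2
      simp only [map_add, map_mul, hi, hsz, hsw, hss, map_zero] at h3
      linear_combination h3 - e2
    rw [e3] at e0 e1 e2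
    have e2' : i (d - d') = 0 := by linear_combination e2
    rw [e2'] at e0 e1
    have e1' : i (b - b') = 0 := by linear_combination e1
    rw [e1'] at e0
    have e0' : i (a - a') = 0 := by linear_combination e0
    have r0 := sub_eq_zero.mp (hi0 _ e0')
    have r1 := sub_eq_zero.mp (hi0 _ e1')
    have r2 := sub_eq_zero.mp (hi0 _ e2')
    have r3 := sub_eq_zero.mp (hi0 _ e3)
    subst r0 r1 r2 r3
    rfl
  refine ⟨Finset.univ.image f, ?_, ?_⟩
  · rw [Finset.card_image_of_injective _ hfinj]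
    simp [Finset.card_univ, Fintype.card_prod]
  · -- the relation
    have hadd : ∀ x y : K, σ x = x ^ 2 + (G⁻¹ + 1) * x → σ y = y ^ 2 + (G⁻¹ + 1) * y →
        σ (x + y) = (x + y) ^ 2 + (G⁻¹ + 1) * (x + y) := by
      intro x y hx hy
      rw [map_add, hx, hy]
      linear_combination (-(x * y)) * h2
    have hmul : ∀ (a : ZMod 2) (x : K), σ x = x ^ 2 + (G⁻¹ + 1) * x →
        σ (i a * x) = (i a * x) ^ 2 + (G⁻¹ + 1) * (i a * x) := by
      intro a x hx
      have ha : i a = 0 ∨ i a = 1 := by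
        rcases ev3_bit a with h3 | h3
        · left
          rw [h3, map_zero]
        · right
          rw [h3, map_one]
      rcases ha with h3 | h3
      · rw [h3]
        simp
      · rw [h3, one_mul, hx]
    have hG1 : G * G⁻¹ = 1 := mul_inv_cancel₀ hG0
    have hsGi : σ G⁻¹ = G⁻¹ := by rw [map_inv₀, hsG]
    have p0 : σ (G⁻¹ * 1) = (G⁻¹ * 1) ^ 2 + (G⁻¹ + 1) * (G⁻¹ * 1) := by
      rw [map_mul, map_one, hsGi]
      linear_combination (-(G⁻¹ ^ 2)) * h2
    have p1 : σ (G⁻¹ * z) = (G⁻¹ * z) ^ 2 + (G⁻¹ + 1) * (G⁻¹ * z) := by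
      rw [map_mul, hsGi, hsz]
      linear_combination (-(G⁻¹ ^ 2)) * hz - G⁻¹ * hG1
    have p2 : σ (G⁻¹ * w) = (G⁻¹ * w) ^ 2 + (G⁻¹ + 1) * (G⁻¹ * w) := by
      rw [map_mul, hsGi, hsw]
      linear_combination (-(G⁻¹ ^ 2)) * hw - (G⁻¹ * z) * hG1
    have p3 : σ (G⁻¹ * s) = (G⁻¹ * s) ^ 2 + (G⁻¹ + 1) * (G⁻¹ * s) := by
      rw [map_mul, hsGi, hss]
      linear_combination (-(G⁻¹ ^ 2)) * hs - (G⁻¹ * w) * hG1
    intro y hy
    obtain ⟨⟨⟨a, b⟩, ⟨d, e⟩⟩, -, rfl⟩ := Finset.mem_image.mp hy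
    have hy' : f ((a, b), (d, e)) = i a * (G⁻¹ * 1) + i b * (G⁻¹ * z) + i d * (G⁻¹ * w) + i e * (G⁻¹ * s) := by
      simp only [f]
      ring
    rw [hy']
    exact hadd _ _ (hadd _ _ (hadd _ _ (hmul a _ p0) (hmul b _ p1)) (hmul d _ p2)) (hmul e _ p3)

theorem span16 {F K : Type} [Field F] [Field K] [Finite K] [Algebra F K] (hK : Module.finrank F K = 4) [CharP K 2]
    (φ : K ≃ₐ[F] K) (h1 : Cyc F K φ) (h2 : Cyc F K φ.symm) (g : F) (hg1 : ¬ ∃ h : F, h ^ 2 + h = g)
    (hg2 : ∃ h : F, h ^ 2 + h = g ^ 2 + g ^ 3) :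
    ∃ σ : K ≃ₐ[F] K, Cyc F K σ ∧ ∃ V : Finset K, V.card = 16 ∧
      ∀ y ∈ V, σ y = y ^ 2 + algebraMap F K (g⁻¹ + 1) * y := by
  have e2 : (2 : K) = 0 := CharTwo.two_eq_zero
  have hg0 : g ≠ 0 := by
    rintro rfl
    exact hg1 ⟨0, by simp⟩
  have hφG : φ (algebraMap F K g) = algebraMap F K g := φ.commutes g
  obtain ⟨z, hz⟩ := as_solve hK φ h1 (algebraMap F K g) (by
    simp only [hφG]
    linear_combination (2 * algebraMap F K g) * e2)
  have hz' : (φ z) ^ 2 + φ z = algebraMap F K g := by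
    have := congrArg φ hz
    simpa only [map_add, map_pow, hφG] using this
  have hφz : φ z = z + 1 := by
    have h3 : φ z + z = 0 ∨ φ z + z = 1 := by
      apply ev3_root
      linear_combination hz' + hz + (φ z * z + algebraMap F K g) * e2
    rcases h3 with h4 | h4
    · exfalso
      obtain ⟨d, hd⟩ := h1.fix z (by linear_combination h4 - z * e2)
      apply hg1
      refine ⟨d, ?_⟩
      apply (algebraMap F K).injective
      rw [map_add, map_pow, hd, hz]
    · linear_combination h4 - z * e2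
  obtain ⟨w, hw⟩ := as_solve hK φ h1 (algebraMap F K g * z) (by
    simp only [map_mul, map_add, hφG, hφz, map_one]
    linear_combination (algebraMap F K g * (2 * z + 3)) * e2)
  have hw' : (φ w) ^ 2 + φ w = algebraMap F K g * (z + 1) := by
    have := congrArg φ hw
    simpa only [map_mul, map_add, map_pow, hφG, hφz] using this
  have h3 : φ w + w + z = 0 ∨ φ w + w + z = 1 := by
    apply ev3_root
    linear_combination hw' + hw + hz + (φ w * w + φ w * z + w * z + algebraMap F K g * z + algebraMap F K g) * e2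
  rcases h3 with h4 | h4
  · refine ⟨φ, h1, ?_⟩
    exact ev3_pts hK φ h1 g hg0 hg2 z w hz hw hφz (by linear_combination h4 - (w + z) * e2)
  · refine ⟨φ.symm, h2, ?_⟩
    have s1 : φ.symm z = z + 1 := by
      rw [AlgEquiv.symm_apply_eq, map_add, map_one, hφz]
      linear_combination (-(1 : K)) * e2
    have s2 : φ.symm w = w + z := by
      rw [AlgEquiv.symm_apply_eq, map_add, hφz]
      linear_combination (-(1 : K)) * h4 + (w + z) * e2 - (z + 1) * e2
    exact ev3_pts hK φ.symm h2 g hg0 hg2 z w hz hw s1 s2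

end Pool.Agent.Lib.NG5
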