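import Pool.Agent.Lib.NG5.Ev1
import Pool.Agent.Lib.NG5.Ev3
import Pool.Agent.Lib.NG5.Bic
import Pool.Agent.Lib.NG5.Norm

/-!
# NG5 / Ev4: bicliques for even `q`

PROOF IN WORDS. `card F` even: characteristic 2 (`FiniteField.even_card_iff_char_two`), also for `K`. `g` from `exists_g`, `φ` from `exists_cyc`, `σ, V` from `span16`, `β` = image of `g⁻¹ + 1`. For `x ≠ y` in `V`: `σ x - σ y = (x - y)^2 + β (x - y)`, so `σ (x - y) = (x - y) (x - y + β)` and with `d = x - y ≠ 0`, `N(σ d) = N(d)` (`Cyc.norm`, `four`,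
injectivity of `algebraMap`; `N(d) ≠ 0`): `N(x - (y + β)) = 1` (characteristic 2: `x - (y + β) = x - y + β`). `A ⊆ V` with `a` elements, `B = (V \ A).image (· + β)`, `16 - a` elements; `bic` with `ν = 1`, `μ = 1`: `K_{a, 17-a}`. `x ≠ y + β` because the norm is not `0`. `card K = (card F)^4 > 16^4 > 16 + a (16 - a)`.
-/

set_option autoImplicit false

namespace Pool.Agent.Lib.NG5

open SimpleGraph Pool.Agent.Lib.MP_f4a4e4_co.NGX

private theorem e4_norm {F K : Type} [Field F] [Field K] [Algebra F K] (σ : K ≃ₐ[F] K) (hσ : Cyc F K σ)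
    (β d : K) (hd : d ≠ 0) (h : σ d = d * (d + β)) : Algebra.norm F (d + β) = 1 := by
  have h1 : algebraMap F K (Algebra.norm F (σ d)) = algebraMap F K (Algebra.norm F d) := by
    rw [hσ.norm, hσ.norm, hσ.four]
    ring
  have h2 : Algebra.norm F (σ d) = Algebra.norm F d := (algebraMap F K).injective h1
  rw [h, map_mul] at h2
  have h3 : Algebra.norm F d ≠ 0 := by
    intro h0
    have h4 := hσ.norm d
    rw [h0, map_zero] at h4
    have e1 : σ d ≠ 0 := by
      intro hh
      exact hd ((map_eq_zero_iff σ σ.injective).1 hh)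
    have e2 : σ (σ d) ≠ 0 := by
      intro hh
      exact e1 ((map_eq_zero_iff σ σ.injective).1 hh)
    have e3 : σ (σ (σ d)) ≠ 0 := by
      intro hh
      exact e2 ((map_eq_zero_iff σ σ.injective).1 hh)
    exact mul_ne_zero (mul_ne_zero (mul_ne_zero hd e1) e2) e3 h4.symm
  have h5 : Algebra.norm F d * Algebra.norm F (d + β) = Algebra.norm F d * 1 := by
    rw [h2, mul_one]
  exact mul_left_cancel₀ h3 h5

private theorem e4_card {a : ℕ} (ha : a ≤ 16) : a + (16 - a) + a * (16 - a) < 16 ^ 4 := by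
  have h1 : a * (16 - a) ≤ 16 * 16 := Nat.mul_le_mul ha (Nat.sub_le 16 a)
  have h2 : (16 : ℕ) ^ 4 = 65536 := by norm_num
  rw [h2]
  omega

theorem even_asm {F K : Type} [Field F] [Field K] [Finite K] [Algebra F K] (hK : Module.finrank F K = 4)
    (hev : Nat.card F % 2 = 0) (hq : 16 < Nat.card F) (a b : ℕ) (ha : a ≤ 16) (hab : a + b = 17) :
    completeBipartiteGraph (Fin a) (Fin b) ⊑ NormGraph F K := by
  classical
  have hFf : Finite F := Finite.of_injective _ (algebraMap F K).injective
  have hF1 := Fintype.ofFinite F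
  have hchar : ringChar F = 2 := by
    apply FiniteField.even_card_iff_char_two.2
    rw [← Nat.card_eq_fintype_card]
    exact hev
  have hcF : CharP F 2 := by
    rw [← hchar]
    exact ringChar.charP F
  have hcK : CharP K 2 := charP_of_injective_algebraMap (algebraMap F K).injective 2
  obtain ⟨g, hg1, hg2⟩ := exists_g (F := F) (by rw [← Nat.card_eq_fintype_card]; exact hq)
  obtain ⟨φ, h1, h2⟩ := exists_cyc F K hK
  obtain ⟨σ, hσ, V, hV, hVσ⟩ := span16 hK φ h1 h2 g hg1 hg2
  set β : K := algebraMap F K (g⁻¹ + 1) with hβ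
  have hkey : ∀ x ∈ V, ∀ y ∈ V, x ≠ y → Algebra.norm F (x - (y + β)) = 1 := by
    intro x hx y hy hxy
    have hd : x - y ≠ 0 := sub_ne_zero.2 hxy
    have e1 : σ (x - y) = (x - y) * ((x - y) + β) := by
      rw [map_sub, hVσ x hx, hVσ y hy]
      have h2' : (2 : K) = 0 := CharTwo.two_eq_zero
      linear_combination (x * y - y ^ 2) * h2'
    have e2 := e4_norm σ hσ β (x - y) hd e1
    have e3 : x - (y + β) = x - y + β := by
      have h2' : (2 : K) = 0 := CharTwo.two_eq_zero
      linear_combination (-β) * h2'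
    rw [e3, e2]
  obtain ⟨A, hAV, hAc⟩ := Finset.exists_subset_card_eq (s := V) (n := a) (by rw [hV]; exact ha)
  set B : Finset K := (V \ A).image (fun y => y + β) with hB
  have hBc : B.card = 16 - a := by
    rw [hB, Finset.card_image_of_injective _ (add_left_injective β), Finset.card_sdiff_of_subset hAV, hV, hAc]
  have hN : ∀ x ∈ A, ∀ y ∈ B, Algebra.norm F (x - y) = 1 := by
    intro x hx y hy
    obtain ⟨z, hz, rfl⟩ := Finset.mem_image.1 hy
    obtain ⟨hz1, hz2⟩ := Finset.mem_sdiff.1 hz
    apply hkey x (hAV hx) z hz1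
    rintro rfl
    exact hz2 hx
  have hcard : A.card + B.card + A.card * B.card < Nat.card K := by
    rw [hAc, hBc]
    have hK4 : Nat.card K = Nat.card F ^ 4 := by
      have hK1 := Fintype.ofFinite K
      rw [Nat.card_eq_fintype_card, Nat.card_eq_fintype_card, Module.card_eq_pow_finrank (K := F) (V := K), hK]
    rw [hK4]
    exact lt_trans (e4_card ha) (Nat.pow_lt_pow_left hq (by norm_num))
  have hres := bic hK A B 1 (fun _ => 1) one_ne_zero (fun _ _ => one_ne_zero)
    (by
      rintro x hx y hy rfl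
      have h0 := hN x hx x hy
      rw [sub_self] at h0
      have h4 := hσ.norm (0 : K)
      rw [h0, map_one, zero_mul, zero_mul, zero_mul] at h4
      exact one_ne_zero h4)
    (by
      intro x hx y hy
      rw [hN x hx y hy, one_mul]) hcard
  have hb : B.card + 1 = b := by
    rw [hBc]
    omega
  rw [hAc, hb] at hres
  exact hres

end Pool.Agent.Lib.NG5
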