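import Pool.Agent.Lib.NG5.Weil

/-!
# NG5 / Multi: prescribed quadratic characters of several polynomials

PROOF IN WORDS. `∏_i (1 + ε_i χ(P_i(x)))` is `≥ 0`, `≤ 2^n`, and if no `x` has all `χ(P_i(x)) = ε_i` it is `0` unless some `P_i(x) = 0`: at most `n d` such `x` (`P_i ≠ 0` by `hP {i}` with `c = 0`). So `∑_x ∏_i (..) ≤ n d 2^n`. Expanding (`Finset.prod_one_add` or `Finset.prod_add`):
`∑_x ∏_i (..) = ∑_T (∏_{i ∈ T} ε_i) ∑_x χ((∏_{i ∈ T} P_i)(x)) ≥ q - 2^n (7 n d + 4) √q` by `weil` (`natDegree (∏_T P_i) ≤ n d`; `χ` is multiplicative; `T = ∅` gives `q`). Contradiction if `q ≥ q0`, e.g. `q0 = 4 (n d + 1)^2 + (2^n (7 n d + 4) + n d 2^n + 1)^2`.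
-/

set_option autoImplicit false

namespace Pool.Agent.Lib.NG5

open Polynomial

open Finset in
private theorem mu_zeros {F : Type} [Field F] [Fintype F] [DecidableEq F] (n d : ℕ) (P : Fin n → F[X])
    (hd : ∀ i, (P i).natDegree ≤ d) (hP0 : ∀ i, P i ≠ 0) :
    (univ.filter fun x : F => ∃ i, (P i).eval x = 0).card ≤ n * d := by
  have h1 : (univ.filter fun x : F => ∃ i, (P i).eval x = 0) ⊆
      (univ : Finset (Fin n)).biUnion fun i => (P i).roots.toFinset := by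
    intro x hx
    rw [mem_filter] at hx
    obtain ⟨i, hi⟩ := hx.2
    rw [mem_biUnion]
    refine ⟨i, mem_univ i, ?_⟩
    rw [Multiset.mem_toFinset, mem_roots (hP0 i)]
    exact hi
  refine (card_le_card h1).trans (card_biUnion_le.trans ?_)
  calc ∑ i, ((P i).roots.toFinset).card ≤ ∑ _i : Fin n, d := by
        refine sum_le_sum fun i _ => ?_
        exact (Multiset.toFinset_card_le _).trans ((card_roots' (P i)).trans (hd i))
    _ = n * d := by simp

private theorem mu_chi {F : Type} [Field F] [Fintype F] [DecidableEq F] (a : F) :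
    (quadraticChar F a = 0 ∧ a = 0) ∨ (a ≠ 0 ∧ (quadraticChar F a = 1 ∨ quadraticChar F a = -1)) := by
  by_cases ha : a = 0
  · exact Or.inl ⟨quadraticChar_eq_zero_iff.2 ha, ha⟩
  · exact Or.inr ⟨ha, quadraticChar_dichotomy ha⟩

open Finset in
private theorem mu_expand {F : Type} [Field F] [Fintype F] [DecidableEq F] (n : ℕ) (P : Fin n → F[X])
    (ε : Fin n → ℤ) :
    ∑ x : F, ∏ i, (1 + (ε i : ℝ) * ((quadraticChar F ((P i).eval x) : ℤ) : ℝ)) =
      ∑ T ∈ (univ : Finset (Fin n)).powerset, (∏ i ∈ T, (ε i : ℝ)) *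
        ∑ x : F, ((quadraticChar F ((∏ i ∈ T, P i).eval x) : ℤ) : ℝ) := by
  have h1 : ∀ x : F, ∏ i, (1 + (ε i : ℝ) * ((quadraticChar F ((P i).eval x) : ℤ) : ℝ)) =
      ∑ T ∈ (univ : Finset (Fin n)).powerset, (∏ i ∈ T, (ε i : ℝ)) *
        ((quadraticChar F ((∏ i ∈ T, P i).eval x) : ℤ) : ℝ) := by
    intro x
    rw [Finset.prod_one_add]
    refine sum_congr rfl fun T _ => ?_
    rw [Finset.prod_mul_distrib, Polynomial.eval_prod, map_prod]
    push_cast
    rfl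
  simp_rw [h1]
  rw [sum_comm]
  refine sum_congr rfl fun T _ => ?_
  rw [mul_sum]

open Finset in
private theorem mu_upper {F : Type} [Field F] [Fintype F] [DecidableEq F] (n d : ℕ) (P : Fin n → F[X])
    (hd : ∀ i, (P i).natDegree ≤ d) (hP0 : ∀ i, P i ≠ 0) (ε : Fin n → ℤ) (hε : ∀ i, ε i = 1 ∨ ε i = -1)
    (hno : ∀ x : F, ∃ i, quadraticChar F ((P i).eval x) ≠ ε i) :
    ∑ x : F, ∏ i, (1 + (ε i : ℝ) * ((quadraticChar F ((P i).eval x) : ℤ) : ℝ)) ≤ (n * d : ℕ) * 2 ^ n := by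
  have hfac : ∀ (i : Fin n) (x : F), 0 ≤ 1 + (ε i : ℝ) * ((quadraticChar F ((P i).eval x) : ℤ) : ℝ) ∧
      1 + (ε i : ℝ) * ((quadraticChar F ((P i).eval x) : ℤ) : ℝ) ≤ 2 := by
    intro i x
    rcases hε i with h | h <;> rcases mu_chi ((P i).eval x) with ⟨h2, _⟩ | ⟨_, h2 | h2⟩ <;>
      rw [h, h2] <;> norm_num
  have hle : ∀ x : F, ∏ i, (1 + (ε i : ℝ) * ((quadraticChar F ((P i).eval x) : ℤ) : ℝ)) ≤ 2 ^ n := by
    intro x
    calc ∏ i, (1 + (ε i : ℝ) * ((quadraticChar F ((P i).eval x) : ℤ) : ℝ)) ≤ ∏ _i : Fin n, (2 : ℝ) :=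
          Finset.prod_le_prod (fun i _ => (hfac i x).1) (fun i _ => (hfac i x).2)
      _ = 2 ^ n := by simp
  have hz : ∀ x : F, x ∉ (univ.filter fun x : F => ∃ i, (P i).eval x = 0) →
      ∏ i, (1 + (ε i : ℝ) * ((quadraticChar F ((P i).eval x) : ℤ) : ℝ)) = 0 := by
    intro x hx
    rw [mem_filter, not_and] at hx
    have hx' := hx (mem_univ x)
    push Not at hx'
    obtain ⟨i, hi⟩ := hno x
    refine Finset.prod_eq_zero (mem_univ i) ?_
    rcases mu_chi ((P i).eval x) with ⟨_, h2⟩ | ⟨_, h2 | h2⟩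
    · exact absurd h2 (hx' i)
    · rcases hε i with h | h
      · exact absurd (h2.trans h.symm) hi
      · rw [h, h2]; norm_num
    · rcases hε i with h | h
      · rw [h, h2]; norm_num
      · exact absurd (h2.trans h.symm) hi
  rw [← Finset.sum_subset (Finset.subset_univ (univ.filter fun x : F => ∃ i, (P i).eval x = 0))
    (fun x _ hx => hz x hx)]
  calc ∑ x ∈ (univ.filter fun x : F => ∃ i, (P i).eval x = 0),
        ∏ i, (1 + (ε i : ℝ) * ((quadraticChar F ((P i).eval x) : ℤ) : ℝ))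
      ≤ ∑ _x ∈ (univ.filter fun x : F => ∃ i, (P i).eval x = 0), (2 : ℝ) ^ n :=
        sum_le_sum fun x _ => hle x
    _ = ((univ.filter fun x : F => ∃ i, (P i).eval x = 0).card : ℝ) * 2 ^ n := by
        rw [sum_const, nsmul_eq_mul]
    _ ≤ (n * d : ℕ) * 2 ^ n := by
        refine mul_le_mul_of_nonneg_right ?_ (by positivity)
        exact_mod_cast mu_zeros n d P hd hP0

theorem multi (n d : ℕ) : ∃ q0 : ℕ, ∀ (F : Type) [Field F] [Fintype F] [DecidableEq F], Fintype.card F % 2 = 1 →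
    q0 ≤ Fintype.card F → ∀ P : Fin n → F[X], (∀ i, (P i).natDegree ≤ d) →
      (∀ T : Finset (Fin n), T.Nonempty → ∀ (c : F) (g : F[X]), ∏ i ∈ T, P i ≠ C c * g ^ 2) →
        ∀ ε : Fin n → ℤ, (∀ i, ε i = 1 ∨ ε i = -1) → ∃ x : F, ∀ i, quadraticChar F ((P i).eval x) = ε i := by
  refine ⟨4 * (n * d + 1) ^ 2 + (2 ^ n * (7 * (n * d) + 4) + n * d * 2 ^ n + 1) ^ 2,
    fun F _ _ _ hodd hq P hd hP ε hε => ?_⟩
  by_contra hno
  push Not at hno
  have hP0 : ∀ i, P i ≠ 0 := fun i h0 => by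
    refine hP {i} (Finset.singleton_nonempty i) 0 0 ?_
    rw [Finset.prod_singleton, h0]
    simp
  have hup := mu_upper n d P hd hP0 ε hε hno
  rw [mu_expand n P ε] at hup
  set S : ℝ := Real.sqrt (Fintype.card F) with hS
  have hS0 : 0 ≤ S := Real.sqrt_nonneg _
  have hdeg : ∀ T : Finset (Fin n), (∏ i ∈ T, P i).natDegree ≤ n * d := by
    intro T
    refine (Polynomial.natDegree_prod_le T P).trans ?_
    calc ∑ i ∈ T, (P i).natDegree ≤ ∑ _i ∈ T, d := Finset.sum_le_sum fun i _ => hd i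
      _ = T.card * d := by rw [Finset.sum_const, smul_eq_mul]
      _ ≤ n * d := Nat.mul_le_mul_right d (by simpa using Finset.card_le_univ T)
  have hterm : ∀ T ∈ ((Finset.univ : Finset (Fin n)).powerset).erase ∅,
      -((7 * ((n * d : ℕ) : ℝ) + 4) * S) ≤ (∏ i ∈ T, (ε i : ℝ)) *
        ∑ x : F, ((quadraticChar F ((∏ i ∈ T, P i).eval x) : ℤ) : ℝ) := by
    intro T hT
    rw [Finset.mem_erase] at hT
    have hTn : T.Nonempty := Finset.nonempty_iff_ne_empty.2 hT.1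
    have h4 : 4 * ((∏ i ∈ T, P i).natDegree + 1) ^ 2 ≤ Fintype.card F := by
      refine le_trans ?_ hq
      refine le_trans ?_ (Nat.le_add_right _ _)
      exact Nat.mul_le_mul_left 4 (Nat.pow_le_pow_left (Nat.succ_le_succ (hdeg T)) 2)
    have hw := weil hodd (∏ i ∈ T, P i) (hP T hTn) h4
    have he : |∏ i ∈ T, (ε i : ℝ)| = 1 := by
      rw [Finset.abs_prod]
      refine Finset.prod_eq_one fun i _ => ?_
      rcases hε i with h | h <;> rw [h] <;> norm_num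
    have h5 : |(∏ i ∈ T, (ε i : ℝ)) *
        ∑ x : F, ((quadraticChar F ((∏ i ∈ T, P i).eval x) : ℤ) : ℝ)| ≤ (7 * ((n * d : ℕ) : ℝ) + 4) * S := by
      rw [abs_mul, he, one_mul]
      refine hw.trans (mul_le_mul_of_nonneg_right ?_ hS0)
      have h6 : ((∏ i ∈ T, P i).natDegree : ℝ) ≤ ((n * d : ℕ) : ℝ) := by exact_mod_cast hdeg T
      linarith
    exact (abs_le.1 h5).1
  have h0mem : (∅ : Finset (Fin n)) ∈ (Finset.univ : Finset (Fin n)).powerset := Finset.empty_mem_powerset _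
  rw [← Finset.add_sum_erase _ _ h0mem] at hup
  have hempty : (∏ i ∈ (∅ : Finset (Fin n)), (ε i : ℝ)) *
      ∑ x : F, ((quadraticChar F ((∏ i ∈ (∅ : Finset (Fin n)), P i).eval x) : ℤ) : ℝ) = Fintype.card F := by
    simp
  rw [hempty] at hup
  have hrest : -((2 : ℝ) ^ n * ((7 * ((n * d : ℕ) : ℝ) + 4) * S)) ≤
      ∑ T ∈ ((Finset.univ : Finset (Fin n)).powerset).erase ∅, (∏ i ∈ T, (ε i : ℝ)) *
        ∑ x : F, ((quadraticChar F ((∏ i ∈ T, P i).eval x) : ℤ) : ℝ) := by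
    refine le_trans ?_ (Finset.card_nsmul_le_sum _ _ _ hterm)
    have hcard : ((((Finset.univ : Finset (Fin n)).powerset).erase ∅).card : ℝ) ≤ 2 ^ n := by
      have h7 : (((Finset.univ : Finset (Fin n)).powerset).erase ∅).card ≤ 2 ^ n := by
        refine (Finset.card_le_card (Finset.erase_subset _ _)).trans ?_
        rw [Finset.card_powerset, Finset.card_univ, Fintype.card_fin]
      exact_mod_cast h7
    rw [nsmul_eq_mul, mul_neg]
    exact neg_le_neg (mul_le_mul_of_nonneg_right hcard (by positivity))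
  have hqS : S * S = Fintype.card F := Real.mul_self_sqrt (Nat.cast_nonneg _)
  have hbig : (2 : ℝ) ^ n * (7 * ((n * d : ℕ) : ℝ) + 4) + ((n * d : ℕ) : ℝ) * 2 ^ n + 1 ≤ S := by
    rw [hS]
    refine Real.le_sqrt_of_sq_le ?_
    have h8 : (2 ^ n * (7 * (n * d) + 4) + n * d * 2 ^ n + 1) ^ 2 ≤ Fintype.card F :=
      le_trans (Nat.le_add_left _ _) hq
    have h9 : (((2 ^ n * (7 * (n * d) + 4) + n * d * 2 ^ n + 1) ^ 2 : ℕ) : ℝ) ≤ (Fintype.card F : ℝ) := by
      exact_mod_cast h8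
    refine le_trans (le_of_eq ?_) h9
    push_cast
    ring
  have hA : 0 ≤ ((n * d : ℕ) : ℝ) * 2 ^ n := by positivity
  have hB : 0 ≤ (2 : ℝ) ^ n * (7 * ((n * d : ℕ) : ℝ) + 4) := by positivity
  nlinarith [mul_le_mul_of_nonneg_right hbig hS0]

end Pool.Agent.Lib.NG5
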