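import Mathlib

/-!
# NG5 / Quo (Stepanov 1): `f^(n-k)` divides the `k`-th Hasse derivative of `f^n r`, linearly in `r`

PROOF IN WORDS. Divisibility: induction on `n` (for all `r`, `k`, also `k > n` with exponent `0` in truncated subtraction) with `Polynomial.hasseDeriv_mul`: `f^(n+1) r = f (f^n r)`,
`E^k (f h) = ∑_{i+j=k} E^i f E^j h`; the term `i = 0` is `f E^k(f^n r)`, divisible by `f f^(n-k)`; for `i ≥ 1`, `j ≤ k-1`, `f^(n-j) ∣ E^j(f^n r)` and `n - j ≥ n+1-k`. The quotient is unique
(`f ≠ 0`, domain), so it is linear in `r` (choose it and cancel). Degrees: if `L r ≠ 0`: `natDegree (E^k (f^n r)) ≤ n m + deg r - k` (`natDegree_hasseDeriv_le`), `m = natDegree f`, and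
`natDegree (f^(n-k) L r) = (n-k) m + deg (L r)`; so `deg (L r) ≤ deg r + k m - k`, which is `< A + k (m-1)` if `deg r < A`.
-/

set_option autoImplicit false

namespace Pool.Agent.Lib.NG5

open Polynomial

private theorem quo_dvd {F : Type} [Field F] (f : F[X]) (n : ℕ) : ∀ (k : ℕ) (r : F[X]), f ^ (n - k) ∣ hasseDeriv k (f ^ n * r) := by
  induction n with
  | zero =>
    intro k r
    rw [Nat.zero_sub, pow_zero]
    exact one_dvd _
  | succ n ih =>
    intro k r
    rw [show f ^ (n + 1) * r = f * (f ^ n * r) by ring, hasseDeriv_mul]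
    refine Finset.dvd_sum fun ij hij => ?_
    rw [Finset.HasAntidiagonal.mem_antidiagonal] at hij
    rcases Nat.eq_zero_or_pos ij.1 with h0 | h0
    · rw [h0, hasseDeriv_zero', show ij.2 = k by omega]
      rcases Nat.lt_or_ge n k with h1 | h1
      · rw [show n + 1 - k = 0 by omega, pow_zero]
        exact one_dvd _
      · rw [show n + 1 - k = (n - k) + 1 by omega, pow_succ, mul_comm (f ^ (n - k)) f]
        exact mul_dvd_mul_left f (ih k r)
    · refine Dvd.dvd.mul_left ?_ _
      exact (pow_dvd_pow f (by omega : n + 1 - k ≤ n - ij.2)).trans (ih ij.2 r)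

theorem exists_quo {F : Type} [Field F] (f : F[X]) (hf : f ≠ 0) (n k : ℕ) (hk : k ≤ n) :
    ∃ L : F[X] →ₗ[F] F[X], (∀ r, hasseDeriv k (f ^ n * r) = f ^ (n - k) * L r) ∧
      ∀ (A : ℕ) (r : F[X]), r ∈ degreeLT F A → L r ∈ degreeLT F (A + k * (f.natDegree - 1)) := by
  have hfp : f ^ (n - k) ≠ 0 := pow_ne_zero _ hf
  have hch : ∀ r, ∃ q, hasseDeriv k (f ^ n * r) = f ^ (n - k) * q := fun r => quo_dvd f n k r
  choose q hq using hch
  refine ⟨{ toFun := q, map_add' := fun r s => ?_, map_smul' := fun c r => ?_ }, fun r => hq r, fun A r hr => ?_⟩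
  · apply mul_left_cancel₀ hfp
    rw [mul_add, ← hq, ← hq, ← hq, mul_add, map_add]
  · apply mul_left_cancel₀ hfp
    rw [RingHom.id_apply, mul_smul_comm, ← hq, ← hq, mul_smul_comm, map_smul]
  · show q r ∈ degreeLT F (A + k * (f.natDegree - 1))
    by_cases hq0 : q r = 0
    · rw [hq0]
      exact Submodule.zero_mem _
    · have hne : hasseDeriv k (f ^ n * r) ≠ 0 := by
        rw [hq]
        exact mul_ne_zero hfp hq0
      have hr0 : r ≠ 0 := by
        rintro rfl
        rw [mul_zero, map_zero] at hne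
        exact hne rfl
      rw [mem_degreeLT, degree_eq_natDegree hr0] at hr
      rw [mem_degreeLT, degree_eq_natDegree hq0]
      have hr' : r.natDegree < A := by exact_mod_cast hr
      have h1 : k ≤ (f ^ n * r).natDegree := by
        by_contra h
        exact hne (hasseDeriv_eq_zero_of_lt_natDegree _ _ (not_le.1 h))
      have h2 := natDegree_hasseDeriv_le (f ^ n * r) k
      rw [hq, natDegree_mul hfp hq0, natDegree_mul (pow_ne_zero _ hf) hr0, natDegree_pow, natDegree_pow] at h2
      rw [natDegree_mul (pow_ne_zero _ hf) hr0, natDegree_pow] at h1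
      have h3 : (q r).natDegree < A + k * (f.natDegree - 1) := by
        obtain ⟨l, rfl⟩ : ∃ l, n = k + l := ⟨n - k, by omega⟩
        rw [show k + l - k = l by omega] at h2
        rcases Nat.eq_zero_or_pos f.natDegree with hm | hm
        · rw [hm] at h2 ⊢
          omega
        · obtain ⟨m, hm'⟩ : ∃ m, f.natDegree = m + 1 := ⟨f.natDegree - 1, by omega⟩
          rw [hm'] at h1 h2 ⊢
          rw [Nat.add_sub_cancel]
          have e1 : (k + l) * (m + 1) = k * m + k + l * (m + 1) := by ring
          rw [e1] at h1 h2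
          omega
      exact_mod_cast h3

end Pool.Agent.Lib.NG5
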