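import Mathlib

/-!
# NG5 / Rel: identities in the field `K`

PROOF IN WORDS. All are polynomial identities after clearing the denominators `2α`, modulo `ω^2 = 4α^4+1`, the formula for `u^2` and the formula for `f^2`. Put `s = 2α^2+2α+1`, `d = 2α^2+1`, `e = 2α^2-1`, `c = (e+ω)/(2α)`, `a = f(s+ω)`, `b = f(s-ω)`; `s^2 - ω^2 = 4αs`, `s^2 + ω^2 = 2sd`, `ω^2 - e^2 = 4α^2`.
(1) `(a+u)(b+cu) = α(a+u)^2 + 1` splits into `ab + cu^2 = α(a^2+u^2) + 1` and `u(ca + b) = 2αau`; the second: `c(s+ω) + (s-ω) = 2α(s+ω)`. (2) is (1) with `α, f, u, ω` conjugated: it splits into `ab - cu^2 = α(b^2 + c^2u^2) + 1` and `cu a - ub = 2αbcu`. (3) `a^2 - u^2 = -(1+ω)/(2α^3)` and `b^2 - c^2u^2 = -(1-ω)/(2α^3)`, the product is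
`(1-ω^2)/(4α^6) = -1/α^2`. Use `field_simp` and `linear_combination` with coefficients in the three relations; `hf : 16 α^5 s f^2 = -d`. (The formulas were checked by computer in `F_(11^4)`, `F_(13^4)`, `F_(17^4)`.)
-/

set_option autoImplicit false

namespace Pool.Agent.Lib.NG5

theorem rel {K : Type} [Field K] (h2 : (2 : K) ≠ 0) (α f ω u : K) (hα : α ≠ 0) (hd : 2 * α ^ 2 + 1 ≠ 0)
    (hf : 16 * α ^ 5 * (2 * α ^ 2 + 2 * α + 1) * f ^ 2 = -(2 * α ^ 2 + 1)) (hω : ω ^ 2 = 4 * α ^ 4 + 1)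
    (hu : (2 * α ^ 2 + 1) * u ^ 2 = 2 * f ^ 2 * (2 * α ^ 2 + 2 * α + 1) * (ω ^ 2 - (2 * α ^ 2 - 1) * ω)) :
    (f * (2 * α ^ 2 + 2 * α + 1 + ω) + u) * (f * (2 * α ^ 2 + 2 * α + 1 - ω) + (2 * α ^ 2 - 1 + ω) / (2 * α) * u) =
        α * (f * (2 * α ^ 2 + 2 * α + 1 + ω) + u) ^ 2 + 1 ∧
      (f * (2 * α ^ 2 + 2 * α + 1 + ω) + u) * (f * (2 * α ^ 2 + 2 * α + 1 - ω) + (2 * α ^ 2 - 1 + ω) / (2 * α) * u) *
        ((f * (2 * α ^ 2 + 2 * α + 1 + ω) - u) * (f * (2 * α ^ 2 + 2 * α + 1 - ω) - (2 * α ^ 2 - 1 + ω) / (2 * α) * u)) =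
        -(1 / α ^ 2) := by
  obtain ⟨c, hc⟩ : ∃ c, c = (2 * α ^ 2 - 1 + ω) / (2 * α) := ⟨_, rfl⟩
  have h2α : 2 * α ≠ 0 := mul_ne_zero h2 hα
  have hc' : 2 * α * c = 2 * α ^ 2 - 1 + ω := by
    rw [hc]
    field_simp
  rw [← hc]
  constructor
  · refine mul_left_cancel₀ (mul_ne_zero h2α hd) ?_
    linear_combination ((2 * α ^ 2 + 1) * u ^ 2 + u * (2 * α ^ 2 + 1) * (f * (2 * α ^ 2 + 2 * α + 1 + ω))) * hc' +
      (ω - 1) * hu + (u * (2 * α ^ 2 + 1) * f + f ^ 2 * (2 * (2 * α ^ 2 + 2 * α + 1) * ω + (-2 * α * (2 * α ^ 2 + 1) -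
        4 * α ^ 2 * (2 * α ^ 2 + 2 * α + 1) - 2 * α ^ 2 * (2 * α ^ 2 + 1)))) * hω - 2 * α * hf
  · have hA : 2 * α ^ 3 * ((f * (2 * α ^ 2 + 2 * α + 1 + ω)) ^ 2 - u ^ 2) = -(1 + ω) := by
      refine mul_left_cancel₀ hd ?_
      linear_combination (1 + ω) * hf - 2 * α ^ 3 * hu +
        2 * α ^ 3 * f ^ 2 * ((2 * α ^ 2 + 1) - 2 * (2 * α ^ 2 + 2 * α + 1)) * hω
    have hcc : (2 * α * c) ^ 2 = (2 * α ^ 2 - 1 + ω) ^ 2 := by rw [hc']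
    have hB : 2 * α ^ 3 * ((f * (2 * α ^ 2 + 2 * α + 1 - ω)) ^ 2 - (c * u) ^ 2) = -(1 - ω) := by
      refine mul_left_cancel₀ (mul_ne_zero (pow_ne_zero 2 h2α) hd) ?_
      linear_combination (-2 * α ^ 3 * (2 * α ^ 2 + 1) * u ^ 2) * hcc - 2 * α ^ 3 * (2 * α ^ 2 - 1 + ω) ^ 2 * hu +
        4 * α ^ 2 * (1 - ω) * hf + f ^ 2 * (-4 * α ^ 3 * (2 * α ^ 2 + 2 * α + 1) * ω ^ 2 -
          4 * α ^ 3 * (2 * α ^ 2 + 2 * α + 1) * (2 * α ^ 2 - 1) * ω + 8 * α ^ 5 * (2 * α ^ 2 + 1) -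
          16 * α ^ 5 * (2 * α ^ 2 + 2 * α + 1)) * hω
    have hAB : (2 * α ^ 3) ^ 2 * (((f * (2 * α ^ 2 + 2 * α + 1 + ω)) ^ 2 - u ^ 2) *
        ((f * (2 * α ^ 2 + 2 * α + 1 - ω)) ^ 2 - (c * u) ^ 2)) = (2 * α ^ 3) ^ 2 * (-(1 / α ^ 2)) := by
      have h1 : (2 * α ^ 3) ^ 2 * (-(1 / α ^ 2)) = -(4 * α ^ 4) := by
        field_simp
        ring
      rw [h1]
      linear_combination (2 * α ^ 3 * ((f * (2 * α ^ 2 + 2 * α + 1 - ω)) ^ 2 - (c * u) ^ 2)) * hA - (1 + ω) * hB - hω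
    have h3 := mul_left_cancel₀ (pow_ne_zero 2 (mul_ne_zero h2 (pow_ne_zero 3 hα))) hAB
    rw [← h3]
    ring

end Pool.Agent.Lib.NG5
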