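import Pool.Agent.Lib.NG5.Cnt

/-!
# NG5 / Weil: the Weil bound for quadratic character sums of polynomials (with a weaker constant)

PROOF IN WORDS. `f ≠ 0` has at most `m = natDegree f < q` zeros, so there is `c` with `f(c) ≠ 0`; `f1 = f.comp (X + C c)` satisfies the hypotheses of `count_le` (`natDegree_comp`, if `f1 = C d * g^2` then `f = C d * (g.comp (X - C c))^2`), and the sum over `x` is unchanged (`Equiv.addRight`).
`quadraticChar F a = a^((q-1)/2)` in `F` (`quadraticChar_eq_pow_of_char_ne_two'`, `(q-1)/2 = q/2`): so the value is `1` exactly on the set of `count_le` with `a = 1`, `-1` with `a = -1`, `0` on the zeros. `N_1, N_(-1) ≤ q/2 + (3m+2) √q`, `N_1 + N_(-1) ≥ q - m`, so `|N_1 - N_(-1)| ≤ 2 (3m+2) √q + m`.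
-/

set_option autoImplicit false

namespace Pool.Agent.Lib.NG5

open Polynomial

private lemma exists_eval_ne {F : Type} [Field F] [Fintype F] (f : F[X]) (hf : f ≠ 0)
    (hq : f.natDegree < Fintype.card F) : ∃ c, f.eval c ≠ 0 := by
  by_contra hcon
  push Not at hcon
  exact hf (Polynomial.eq_zero_of_natDegree_lt_card_of_eval_eq_zero' f Finset.univ (fun x _ => hcon x)
    (by rwa [Finset.card_univ]))

private lemma sum_eq_sub {F : Type} [Field F] [Fintype F] [DecidableEq F] (hchar : ringChar F ≠ 2) (f : F[X]) (n : ℕ)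
    (hn : n = Fintype.card F / 2) :
    ∑ x : F, ((quadraticChar F (f.eval x) : ℤ) : ℝ) =
      ((Finset.univ.filter fun x : F => f.eval x ^ n = 1).card : ℝ) -
        ((Finset.univ.filter fun x : F => f.eval x ^ n = -1).card : ℝ) := by
  have h1 : (1 : F) ≠ -1 := fun h => Ring.neg_one_ne_one_of_char_ne_two hchar h.symm
  rw [Finset.card_filter, Finset.card_filter]
  push_cast
  rw [← Finset.sum_sub_distrib]
  apply Finset.sum_congr rfl
  intro x _
  have hpow := quadraticChar_eq_pow_of_char_ne_two' hchar (f.eval x)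
  rw [← hn] at hpow
  by_cases h0 : f.eval x = 0
  · rw [h0] at hpow ⊢
    rw [quadraticChar_zero] at hpow ⊢
    rw [← hpow]
    simp
  · rcases quadraticChar_dichotomy h0 with h | h
    · rw [h] at hpow ⊢
      rw [← hpow]
      push_cast
      rw [if_pos rfl, if_neg h1]
      norm_num
    · rw [h] at hpow ⊢
      rw [← hpow]
      push_cast
      rw [if_neg h1.symm, if_pos rfl]
      norm_num

private lemma card_ge {F : Type} [Field F] [Fintype F] [DecidableEq F] (hchar : ringChar F ≠ 2) (f : F[X]) (n : ℕ)
    (hf : f ≠ 0) (hn : n = Fintype.card F / 2) :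
    Fintype.card F ≤ (Finset.univ.filter fun x : F => f.eval x ^ n = 1).card +
        (Finset.univ.filter fun x : F => f.eval x ^ n = -1).card + f.natDegree := by
  have hsub : (Finset.univ : Finset F) ⊆ ((Finset.univ.filter fun x : F => f.eval x ^ n = 1) ∪
      (Finset.univ.filter fun x : F => f.eval x ^ n = -1)) ∪ f.roots.toFinset := by
    intro x _
    have hpow := quadraticChar_eq_pow_of_char_ne_two' hchar (f.eval x)
    rw [← hn] at hpow
    by_cases h0 : f.eval x = 0
    · exact Finset.mem_union_right _ (by rw [Multiset.mem_toFinset, mem_roots hf]; exact h0)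
    · apply Finset.mem_union_left
      rcases quadraticChar_dichotomy h0 with h | h
      · apply Finset.mem_union_left
        rw [Finset.mem_filter]
        refine ⟨Finset.mem_univ _, ?_⟩
        rw [← hpow, h]; simp
      · apply Finset.mem_union_right
        rw [Finset.mem_filter]
        refine ⟨Finset.mem_univ _, ?_⟩
        rw [← hpow, h]; simp
  have h1 := Finset.card_le_card hsub
  rw [Finset.card_univ] at h1
  have h2 := Finset.card_union_le ((Finset.univ.filter fun x : F => f.eval x ^ n = 1) ∪
      (Finset.univ.filter fun x : F => f.eval x ^ n = -1)) f.roots.toFinset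
  have h3 := Finset.card_union_le (Finset.univ.filter fun x : F => f.eval x ^ n = 1)
      (Finset.univ.filter fun x : F => f.eval x ^ n = -1)
  have h4 : f.roots.toFinset.card ≤ f.natDegree := (Multiset.toFinset_card_le _).trans (card_roots' f)
  omega

theorem weil {F : Type} [Field F] [Fintype F] [DecidableEq F] (hodd : Fintype.card F % 2 = 1) (f : F[X])
    (hns : ∀ (c : F) (g : F[X]), f ≠ C c * g ^ 2) (hq : 4 * (f.natDegree + 1) ^ 2 ≤ Fintype.card F) :
    |∑ x : F, ((quadraticChar F (f.eval x) : ℤ) : ℝ)| ≤ (7 * f.natDegree + 4) * Real.sqrt (Fintype.card F) := by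
  have hchar : ringChar F ≠ 2 := by
    intro h
    have := FiniteField.even_card_of_char_two h
    omega
  have hf0 : f ≠ 0 := by
    intro h
    exact hns 0 0 (by simp [h])
  have hlt : f.natDegree < Fintype.card F := by nlinarith
  obtain ⟨c, hc⟩ := exists_eval_ne f hf0 hlt
  obtain ⟨f1, hf1⟩ : ∃ f1 : F[X], f1 = f.comp (X + C c) := ⟨_, rfl⟩
  have hdeg : f1.natDegree = f.natDegree := by rw [hf1, natDegree_comp, natDegree_X_add_C, mul_one]
  have h0 : f1.eval 0 ≠ 0 := by
    rw [hf1, eval_comp]
    simpa using hc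
  have hns1 : ∀ (d : F) (g : F[X]), f1 ≠ C d * g ^ 2 := by
    intro d g h
    apply hns d (g.comp (X - C c))
    have h2 := congrArg (fun p : F[X] => p.comp (X - C c)) h
    simp only [hf1] at h2
    rw [comp_assoc] at h2
    simpa using h2
  have hf1ne : f1 ≠ 0 := by
    intro h
    exact hns1 0 0 (by simp [h])
  have hsum : ∑ x : F, ((quadraticChar F (f.eval x) : ℤ) : ℝ) = ∑ x : F, ((quadraticChar F (f1.eval x) : ℤ) : ℝ) := by
    rw [← Equiv.sum_comp (Equiv.addRight c)]
    apply Finset.sum_congr rfl
    intro x _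
    rw [hf1, eval_comp]
    simp
  have hn : (Fintype.card F - 1) / 2 = Fintype.card F / 2 := by omega
  have hA := count_le hodd f1 h0 hns1 (by rw [hdeg]; exact hq) 1
  have hB := count_le hodd f1 h0 hns1 (by rw [hdeg]; exact hq) (-1)
  have hge := card_ge hchar f1 _ hf1ne hn
  have hge' : (Fintype.card F : ℝ) ≤
      ((Finset.univ.filter fun x : F => f1.eval x ^ ((Fintype.card F - 1) / 2) = 1).card : ℝ) +
        ((Finset.univ.filter fun x : F => f1.eval x ^ ((Fintype.card F - 1) / 2) = -1).card : ℝ) + f1.natDegree := by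
    exact_mod_cast hge
  rw [hsum, sum_eq_sub hchar f1 _ hn]
  rw [hdeg] at hA hB hge'
  have hs : (1 : ℝ) ≤ Real.sqrt (Fintype.card F) := by
    rw [Real.one_le_sqrt]
    exact_mod_cast Fintype.card_pos
  have hm : (f.natDegree : ℝ) ≤ f.natDegree * Real.sqrt (Fintype.card F) :=
    le_mul_of_one_le_right (Nat.cast_nonneg _) hs
  rw [abs_le]
  constructor <;> nlinarith

end Pool.Agent.Lib.NG5
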